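import Mathlib

/-!
Tangent lines of the unit circle and closed curves around it.
-/

noncomputable section

namespace Pool.Agent.MP_ae5b4e_an

open Real Set Filter Topology

/-- The point with signed coordinate `s` on the tangent line to the unit circle at
`(cos θ, sin θ)`; `s = 0` is the tangency point. -/
def tangentPoint (θ s : ℝ) : ℝ × ℝ := (cos θ - s * sin θ, sin θ + s * cos θ)

/-- The closed curve that meets the tangent ray at the angle `θ` at the distance `S c θ` from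
the tangency point: the leaf with parameter `c`. -/
def leaf (S : ℝ → ℝ → ℝ) (c : ℝ) : Set (ℝ × ℝ) := Set.range fun θ => tangentPoint θ (S c θ)

/-- The angle of the other tangency point, seen from the point of the leaf `c` on the tangent ray
at the angle `θ`. -/
def next (S : ℝ → ℝ → ℝ) (c θ : ℝ) : ℝ := θ + 2 * arctan (S c θ)

lemma cos_two_arctan (s : ℝ) : cos (2 * arctan s) = (1 - s ^ 2) / (1 + s ^ 2) := by
  have h : (0:ℝ) < 1 + s ^ 2 := by positivity
  rw [cos_two_mul, cos_sq_arctan]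
  field_simp
  ring

lemma sin_two_arctan (s : ℝ) : sin (2 * arctan s) = 2 * s / (1 + s ^ 2) := by
  have h : (0:ℝ) < 1 + s ^ 2 := by positivity
  rw [sin_two_mul, sin_arctan, cos_arctan]
  have h2 : √(1 + s ^ 2) ^ 2 = 1 + s ^ 2 := sq_sqrt h.le
  have h3 : √(1 + s ^ 2) ≠ 0 := (sqrt_pos.2 h).ne'
  field_simp
  rw [h2]

lemma tangentPoint_next (θ s : ℝ) : tangentPoint (θ + 2 * arctan s) (-s) = tangentPoint θ s := by
  have h : (0:ℝ) < 1 + s ^ 2 := by positivity
  unfold tangentPoint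
  rw [cos_add, sin_add, cos_two_arctan, sin_two_arctan]
  ext
  · simp only
    field_simp
    ring
  · simp only
    field_simp
    ring

/-- The functional equation of the leaves. -/
lemma next_eq {S : ℝ → ℝ → ℝ} {κ : ℝ → ℝ} {c : ℝ} (hpos : ∀ θ, 0 < S c θ)
    (hproj : ∀ θ s s', s < 0 → 0 < s' → tangentPoint θ s ∈ leaf S c →
      tangentPoint θ s' ∈ leaf S c → s⁻¹ + s'⁻¹ = κ θ) (θ : ℝ) :
    (S c (next S c θ))⁻¹ - κ (next S c θ) = (S c θ)⁻¹ := by
  have h1 : tangentPoint (next S c θ) (-(S c θ)) ∈ leaf S c := by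
    unfold next
    rw [tangentPoint_next]
    exact ⟨θ, rfl⟩
  have h2 : tangentPoint (next S c θ) (S c (next S c θ)) ∈ leaf S c := ⟨_, rfl⟩
  have h3 := hproj _ _ _ (neg_lt_zero.2 (hpos θ)) (hpos _) h1 h2
  rw [inv_neg] at h3
  linarith

lemma sq_tangentPoint (θ s : ℝ) :
    (tangentPoint θ s).1 ^ 2 + (tangentPoint θ s).2 ^ 2 = 1 + s ^ 2 := by
  unfold tangentPoint
  have := sin_sq_add_cos_sq θ
  simp only
  nlinarith

/-- Every point outside the closed unit disc is on a tangent ray. -/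
lemma exists_tangentPoint {z : ℝ × ℝ} (hz : 1 < z.1 ^ 2 + z.2 ^ 2) :
    ∃ θ s, 0 < s ∧ s ^ 2 = z.1 ^ 2 + z.2 ^ 2 - 1 ∧ z = tangentPoint θ s := by
  set s : ℝ := √(z.1 ^ 2 + z.2 ^ 2 - 1) with hs
  have hs1 : 0 < s := sqrt_pos.2 (by linarith)
  have hs2 : s ^ 2 = z.1 ^ 2 + z.2 ^ 2 - 1 := sq_sqrt (by linarith)
  -- the tangency point
  set X : ℝ := (z.1 + s * z.2) / (1 + s ^ 2) with hX
  set Y : ℝ := (z.2 - s * z.1) / (1 + s ^ 2) with hY
  have h1 : (0:ℝ) < 1 + s ^ 2 := by positivity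
  have hXY : X ^ 2 + Y ^ 2 = 1 := by
    rw [hX, hY, div_pow, div_pow, ← add_div, div_eq_one_iff_eq (by positivity)]
    have : z.1 ^ 2 + z.2 ^ 2 = 1 + s ^ 2 := by linarith
    calc (z.1 + s * z.2) ^ 2 + (z.2 - s * z.1) ^ 2
        = (1 + s ^ 2) * (z.1 ^ 2 + z.2 ^ 2) := by ring
      _ = (1 + s ^ 2) ^ 2 := by rw [this]; ring
  obtain ⟨θ, hc, hsn⟩ : ∃ θ : ℝ, cos θ = X ∧ sin θ = Y := by
    refine ⟨Complex.arg ⟨X, Y⟩, ?_, ?_⟩
    · have hn : ‖(⟨X, Y⟩ : ℂ)‖ = 1 := by
        rw [Complex.norm_def, Complex.normSq_mk, ← sq, ← sq, hXY, sqrt_one]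
      have hne : (⟨X, Y⟩ : ℂ) ≠ 0 := by
        intro h
        rw [h, norm_zero] at hn
        exact zero_ne_one hn
      rw [Complex.cos_arg hne, hn, div_one]
    · have hn : ‖(⟨X, Y⟩ : ℂ)‖ = 1 := by
        rw [Complex.norm_def, Complex.normSq_mk, ← sq, ← sq, hXY, sqrt_one]
      rw [Complex.sin_arg, hn, div_one]
  refine ⟨θ, s, hs1, hs2, ?_⟩
  unfold tangentPoint
  rw [hc, hsn]
  ext
  · simp only [hX, hY]
    field_simp
    ring
  · simp only [hX, hY]
    field_simp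
    ring

/-- The last step: a leaf on which `f (U² - 1) - κ f U` is constant is a conic of the pencil. -/
lemma leaf_eq_conic {S : ℝ → ℝ → ℝ} {κ : ℝ → ℝ} {c a b d h : ℝ} (ha : 0 < a)
    (hab : b ^ 2 < a * d)
    (hpos : ∀ θ, 0 < S c θ) (hx : ∀ θ, 0 < (S c θ)⁻¹ - κ θ)
    (hf : ∀ θ, 0 < a * cos θ ^ 2 + 2 * b * cos θ * sin θ + d * sin θ ^ 2)
    (hκ : ∀ θ, 2 * (d - a) * cos θ * sin θ + 2 * b * (cos θ ^ 2 - sin θ ^ 2) =
          - κ θ * (a * cos θ ^ 2 + 2 * b * cos θ * sin θ + d * sin θ ^ 2))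
    (hH : ∀ θ, (a * cos θ ^ 2 + 2 * b * cos θ * sin θ + d * sin θ ^ 2) *
      (((S c θ)⁻¹) ^ 2 - 1 - κ θ * (S c θ)⁻¹) = h) :
    ∃ l : ℝ, a < l ∧ b ^ 2 < (l - a) * (l - d) ∧
      leaf S c = {z : ℝ × ℝ | a * z.1 ^ 2 + 2 * b * z.1 * z.2 + d * z.2 ^ 2 =
        l * (z.1 ^ 2 + z.2 ^ 2 - 1)} := by
  set f : ℝ → ℝ := fun θ => a * cos θ ^ 2 + 2 * b * cos θ * sin θ + d * sin θ ^ 2 with hfdef
  set g : ℝ → ℝ := fun θ => 2 * (d - a) * cos θ * sin θ + 2 * b * (cos θ ^ 2 - sin θ ^ 2)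
    with hgdef
  have hd : 0 < d := by nlinarith [sq_nonneg b]
  -- value of the form on a tangent line
  have hQ : ∀ θ s, a * (tangentPoint θ s).1 ^ 2 +
      2 * b * (tangentPoint θ s).1 * (tangentPoint θ s).2 + d * (tangentPoint θ s).2 ^ 2 =
      f θ + s * g θ + s ^ 2 * (a + d - f θ) := by
    intro θ s
    have h1 : sin θ ^ 2 = 1 - cos θ ^ 2 := by
      have := sin_sq_add_cos_sq θ; linarith
    simp only [tangentPoint, hfdef, hgdef]
    ring_nf
    rw [h1]
    ring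
  set l : ℝ := h + a + d with hl
  have hkey : ∀ θ, f θ * ((S c θ)⁻¹ * ((S c θ)⁻¹ - κ θ)) = l - (a + d - f θ) := by
    intro θ
    have := hH θ
    rw [hl]
    have e : f θ = a * cos θ ^ 2 + 2 * b * cos θ * sin θ + d * sin θ ^ 2 := rfl
    rw [← e] at this
    linarith
  have hlpos : ∀ θ, 0 < l - (a + d - f θ) := by
    intro θ
    rw [← hkey θ]
    exact mul_pos (hf θ) (mul_pos (inv_pos.2 (hpos θ)) (hx θ))
  have hla : a < l := by
    have := hlpos (π / 2)
    simp [hfdef] at this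
    linarith
  have hld : d < l := by
    have := hlpos 0
    simp [hfdef] at this
    linarith
  -- positive definiteness of l - Q
  have hdet : b ^ 2 < (l - a) * (l - d) := by
    -- the form l - Q is positive at every unit vector
    have hform : ∀ x y : ℝ, x ^ 2 + y ^ 2 = 1 → 0 < (l - a) * x ^ 2 - 2 * b * x * y + (l - d) * y ^ 2 := by
      intro x y hxy
      obtain ⟨θ, hc, hs⟩ : ∃ θ : ℝ, cos θ = y ∧ sin θ = -x := by
        refine ⟨Complex.arg ⟨y, -x⟩, ?_, ?_⟩
        · have hn : ‖(⟨y, -x⟩ : ℂ)‖ = 1 := by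
            rw [Complex.norm_def, Complex.normSq_mk, ← sq, ← sq, neg_sq, add_comm, hxy, sqrt_one]
          have hne : (⟨y, -x⟩ : ℂ) ≠ 0 := by
            intro h
            rw [h, norm_zero] at hn
            exact zero_ne_one hn
          rw [Complex.cos_arg hne, hn, div_one]
        · have hn : ‖(⟨y, -x⟩ : ℂ)‖ = 1 := by
            rw [Complex.norm_def, Complex.normSq_mk, ← sq, ← sq, neg_sq, add_comm, hxy, sqrt_one]
          rw [Complex.sin_arg, hn, div_one]
      have h1 := hlpos θ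
      simp only [hfdef, hc, hs] at h1
      have h2 : l - (a + d - (a * y ^ 2 + 2 * b * y * -x + d * (-x) ^ 2)) =
        (l - a) * x ^ 2 - 2 * b * x * y + (l - d) * y ^ 2 := by
        have : l = l * (x ^ 2 + y ^ 2) := by rw [hxy, mul_one]
        have h3 : a + d = (a + d) * (x ^ 2 + y ^ 2) := by rw [hxy, mul_one]
        linear_combination (a + d - l) * hxy
      rw [h2] at h1
      exact h1
    by_contra hneg
    push Not at hneg
    -- test vector (b, l - a)
    have hN : 0 < b ^ 2 + (l - a) ^ 2 := by nlinarith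
    set R : ℝ := √(b ^ 2 + (l - a) ^ 2) with hR
    have hRpos : 0 < R := sqrt_pos.2 hN
    have hR2 : R ^ 2 = b ^ 2 + (l - a) ^ 2 := sq_sqrt hN.le
    have h1 := hform (b / R) ((l - a) / R) (by
      rw [div_pow, div_pow, ← add_div, ← hR2]
      exact div_self (by positivity))
    have h2 : (l - a) * (b / R) ^ 2 - 2 * b * (b / R) * ((l - a) / R) +
        (l - d) * ((l - a) / R) ^ 2 = ((l - a) * ((l - a) * (l - d) - b ^ 2)) / R ^ 2 := by
      field_simp
      ring
    rw [h2] at h1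
    have h3 : (l - a) * ((l - a) * (l - d) - b ^ 2) ≤ 0 :=
      mul_nonpos_of_nonneg_of_nonpos (by linarith) (by linarith)
    have := div_nonpos_of_nonpos_of_nonneg h3 (sq_nonneg R)
    linarith
  refine ⟨l, hla, hdet, ?_⟩
  ext z
  constructor
  · rintro ⟨θ, rfl⟩
    simp only [mem_ofPred_eq]
    rw [hQ, sq_tangentPoint]
    have h1 := hkey θ
    have h2 : g θ = -κ θ * f θ := hκ θ
    have h3 := (hpos θ).ne'
    rw [h2]
    field_simp at h1
    linarith
  · intro hz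
    simp only [mem_ofPred_eq] at hz
    -- z is outside the disc
    have hout : 1 < z.1 ^ 2 + z.2 ^ 2 := by
      by_contra hneg
      push Not at hneg
      have hl0 : 0 < l := by linarith
      have h1 : a * (a * z.1 ^ 2 + 2 * b * z.1 * z.2 + d * z.2 ^ 2) =
          (a * z.1 + b * z.2) ^ 2 + (a * d - b ^ 2) * z.2 ^ 2 := by ring
      have h2 : l * (z.1 ^ 2 + z.2 ^ 2 - 1) ≤ 0 :=
        mul_nonpos_of_nonneg_of_nonpos hl0.le (by linarith)
      rw [← hz] at h2
      have h3 : (a * z.1 + b * z.2) ^ 2 + (a * d - b ^ 2) * z.2 ^ 2 ≤ 0 := by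
        rw [← h1]
        exact mul_nonpos_of_nonneg_of_nonpos ha.le h2
      have h4 : 0 < a * d - b ^ 2 := by linarith
      have h5 : z.2 ^ 2 = 0 := by
        have h6 : (a * d - b ^ 2) * z.2 ^ 2 ≤ 0 := by
          have := sq_nonneg (a * z.1 + b * z.2)
          linarith
        have h7 : 0 ≤ z.2 ^ 2 := sq_nonneg _
        by_contra hne
        have h8 : 0 < z.2 ^ 2 := lt_of_le_of_ne h7 (Ne.symm hne)
        have := mul_pos h4 h8
        linarith
      have h9 : z.2 = 0 := by simpa using h5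
      have h10 : z.1 = 0 := by
        rw [h9] at h3
        have h11 : (a * z.1) ^ 2 ≤ 0 := by simpa using h3
        have h12 : a * z.1 = 0 := by
          have := sq_nonneg (a * z.1)
          have : (a * z.1) ^ 2 = 0 := le_antisymm h11 this
          simpa using this
        rcases mul_eq_zero.1 h12 with h | h
        · exact absurd h ha.ne'
        · exact h
      rw [h9, h10] at hz
      simp at hz
      linarith
    obtain ⟨θ, s, hs, hs2, rfl⟩ := exists_tangentPoint hout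
    rw [hQ, sq_tangentPoint] at hz
    have h2 : g θ = -κ θ * f θ := hκ θ
    rw [h2] at hz
    have h1 := hkey θ
    -- compare the roots
    have h3 : f θ * (s⁻¹ * (s⁻¹ - κ θ)) = l - (a + d - f θ) := by
      have := hs.ne'
      field_simp
      linarith
    have h4 : f θ * ((s⁻¹ - (S c θ)⁻¹) * (s⁻¹ + ((S c θ)⁻¹ - κ θ))) = 0 := by
      have : f θ * ((s⁻¹ - (S c θ)⁻¹) * (s⁻¹ + ((S c θ)⁻¹ - κ θ))) =
        f θ * (s⁻¹ * (s⁻¹ - κ θ)) - f θ * ((S c θ)⁻¹ * ((S c θ)⁻¹ - κ θ)) := by ring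
      rw [this, h3, h1, sub_self]
    have hfθ : f θ ≠ 0 := (hf θ).ne'
    have h5 : 0 < s⁻¹ + ((S c θ)⁻¹ - κ θ) := add_pos (inv_pos.2 hs) (hx θ)
    rcases mul_eq_zero.1 h4 with h | h
    · exact absurd h hfθ
    · rcases mul_eq_zero.1 h with h' | h'
      · have h6 : s⁻¹ = (S c θ)⁻¹ := by linarith
        have h7 : s = S c θ := inv_injective h6
        exact ⟨θ, by rw [h7]⟩
      · exact absurd h' h5.ne'

end Pool.Agent.MP_ae5b4e_an
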