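import Mathlib
import Pool.Agent.Lib.MP_ae5b4e_an_rat.Rational
import Pool.Agent.Lib.MP_ae5b4e_an_LAT.NDKappa
import Pool.Agent.Lib.MP_ae5b4e_an_LAT.NDMain
import Pool.Agent.Lib.MP_ae5b4e_an_LAT.NDSmooth
import Pool.Agent.Lib.MP_ae5b4e_an_SM.Export
import Pool.Agent.Lib.MP_ae5b4e_an_REG.Reg

/-!
# MP_ae5b4e_an: foliations near a conic with an algebraic field of projective involutions

After a projective map the conic `γ` is the unit circle.  The leaves are the closed `C¹` curves
`leaf S c`, `0 < c < 1`, which converge to `γ` for `c → 0`.  On the tangent line to `γ` at the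
point with angle `θ` we use the signed coordinate `s` (`s = 0` at the tangency point); a projective
involution fixing the tangency point is `1/s + 1/s' = κ θ`.  We assume that the involution is an
algebraic function of the point of the conic.  Then the leaves are ellipses of one pencil containing
`γ`.  Nothing else is assumed: no analyticity of the foliation, no first integral, no symmetry and
nothing about periodic orbits, and the foliated neighbourhood may be arbitrarily thin.

Idea of the proof.  In a coordinate `t` of the conic, chosen with the field of involutions, the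
tangent lines through the vertices of a polygon inscribed in a leaf are an orbit of a twist map
near the boundary `γ`.
(0) The field of involutions is real-analytic except at finitely many points.  If `s` is one of
them, look at the closed polygons with `m` vertices through `s`: in a suitable coordinate their
vertices are at `s + j/m + o(1/m)`, so for suitable large `m` all the other vertices are regular
points, and the Dirichlet problem for the polygon shows that the field is analytic at `s` too.
(1) The foliation is real-analytic up to `γ`.  All leaves with rational rotation number `ρ = p/q`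
consist of periodic orbits.  We look for `F(t, ρ)`, holomorphic near `ℝ × {0}`, such that
`F(t + j ρ, ρ)` are orbits, by a Newton iteration on domains `|Im t| < c_n`, `|ρ| < r_n`.  In the
linearised equation the `m`-th Fourier coefficient is divided by `sin ^ 2 (π m ρ)`.  The right side
is quadratically small at the nodes `ρ = k/m`, because the periodic orbits exist and the map is
symplectic, so that after a small correction the quotients are holomorphic in a full neighbourhood
of `ρ = 0`: there are no small divisors.
(2) So the map of consecutive pairs has an analytic first integral near one point of the diagonal,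
and this property is continued along all branches of the algebraic function `k` (a Hartogs argument
near the diagonal).  At a place `x = e + w ^ N` of the curve the slopes of the level curves are
differential polynomials in `k`, and they are holomorphic in `w` by the maximum principle.  The
leading terms satisfy functional equations for a shift of the plane.  They show: `k` has at most a
pole of order one in `x - e`; its residue `r` is `-1`, or `1 / (1 + r)` is an integer and `k` is
unramified there.  The ramification formula and the behaviour at infinity leave only rational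
functions `k`, and for these the theorem on rational fields of involutions applies.
-/

noncomputable section

namespace Pool.Agent.Results.MP_ae5b4e_an.AlgebraicConic

open Real Set Filter Topology Polynomial
open scoped ContDiff
open Pool.Agent.MP_ae5b4e_an Pool.Agent.MP_ae5b4e_an_rat Pool.Agent.MP_ae5b4e_an_ND

/-- Foliations of class `C¹` near the unit circle with projective involutions on the tangent lines
that depend algebraically on the point of the circle are pencils of conics. -/
theorem result (S : ℝ → ℝ → ℝ) (κ : ℝ → ℝ)
    (halg : ∃ G : ℝ[X][X], G ≠ 0 ∧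
      ∀ θ, cos (θ / 2) ≠ 0 → evalEval (tan (θ / 2)) (κ θ) G = 0)
    (hsmooth : ContDiffOn ℝ 1 (fun q : ℝ × ℝ => S q.1 q.2) (Ioo 0 1 ×ˢ univ))
    (hpos : ∀ c ∈ Ioo (0:ℝ) 1, ∀ θ, 0 < S c θ)
    (hper : ∀ c ∈ Ioo (0:ℝ) 1, ∀ θ, S c (θ + 2 * π) = S c θ)
    (hmono : ∀ c ∈ Ioo (0:ℝ) 1, ∀ θ, 0 < deriv (fun t => S t θ) c)
    (hlim : ∀ θ, Tendsto (fun c => S c θ) (𝓝[>] 0) (𝓝 0))
    (hproj : ∀ c ∈ Ioo (0:ℝ) 1, ∀ θ s s', s < 0 → 0 < s' → tangentPoint θ s ∈ leaf S c →
      tangentPoint θ s' ∈ leaf S c → s⁻¹ + s'⁻¹ = κ θ) :
    ∃ a₁ b₁ d₁ a₂ b₂ d₂ : ℝ, 0 < d₁ ∧ a₁ ^ 2 + b₁ ^ 2 < d₁ ^ 2 ∧ 0 < d₂ ∧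
      a₂ ^ 2 + b₂ ^ 2 < d₂ ^ 2 ∧ ∀ c ∈ Ioo (0:ℝ) 1, ∃ l : ℝ, 0 < l ∧
      (∀ x y : ℝ, (x, y) ≠ (0, 0) →
        (a₁ * x + b₁ * y) * (a₂ * x + b₂ * y) < l * (x ^ 2 + y ^ 2)) ∧
      leaf S c = {z : ℝ × ℝ | (a₁ * z.1 + b₁ * z.2 + d₁) * (a₂ * z.1 + b₂ * z.2 + d₂) =
        l * (z.1 ^ 2 + z.2 ^ 2 - 1)} := by
  have h : LFam (fun c θ => (S c θ)⁻¹) κ := lfam_of hsmooth hpos hper hmono hlim hproj
  obtain ⟨G, hG, hrel⟩ := halg
  -- the field of involutions is real-analytic
  obtain ⟨E, hE, hsing⟩ := Pool.Agent.MP_ae5b4e_an_REG.finite_exc h.continuous_κ h.κ_per hG hrel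
  have han : ∀ x, AnalyticAt ℝ κ x :=
    Pool.Agent.MP_ae5b4e_an_REG.analytic_of_finite h hE hsing
  have hκ : ContDiff ℝ ∞ κ := contDiff_iff_contDiffAt.2 fun x => (han x).contDiffAt
  -- the first integral near the diagonal
  obtain ⟨x₀, kc, hkc, hkcr⟩ := Pool.Agent.MP_ae5b4e_an_SM.good_of_lfam h han
  have hkcr' : ∀ᶠ x : ℝ in 𝓝 x₀, kc (x : ℂ) = (kr κ x : ℂ) := hkcr
  obtain ⟨G', hG', hrel'⟩ := alg_local hG (x₀ := x₀) (by
    refine Eventually.of_forall fun x => ?_
    have h1 : cos (2 * arctan x / 2) ≠ 0 := by
      rw [mul_div_cancel_left₀ _ (two_ne_zero)]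
      exact (cos_arctan_pos x).ne'
    have h2 := hrel (2 * arctan x) h1
    rw [mul_div_cancel_left₀ _ (two_ne_zero), tan_arctan] at h2
    exact h2) hkc.1 hkcr'
  obtain ⟨A₁, B₁, hB₁, hAB⟩ := nd_main hkc hG' hrel'
  obtain ⟨A', B', hB', hrat⟩ := rational_of_local_smooth hκ h.κ_per hG hrel hB₁ hkcr' hAB
  exact rationalConic S κ A' B' hB' hrat hsmooth hpos hper hmono hlim hproj

end Pool.Agent.Results.MP_ae5b4e_an.AlgebraicConic
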