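import Mathlib
import Pool.Agent.Lib.MP_ae5b4e_an.Geometry

/-!
Differentiating the functional equation of the leaves.
-/

noncomputable section

namespace Pool.Agent.MP_ae5b4e_an

open Real Set Filter Topology

/-- `1 / S` as a function on the plane -/
def Uf (S : ℝ → ℝ → ℝ) (q : ℝ × ℝ) : ℝ := (S q.1 q.2)⁻¹

/-- derivative in the parameter of the leaf -/
def D1 (S : ℝ → ℝ → ℝ) (q : ℝ × ℝ) : ℝ := fderiv ℝ (Uf S) q (1, 0)

/-- derivative in the angle -/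
def D2 (S : ℝ → ℝ → ℝ) (q : ℝ × ℝ) : ℝ := fderiv ℝ (Uf S) q (0, 1)

/-- The family of leaves: hypotheses used in the analysis. -/
structure Fam (S : ℝ → ℝ → ℝ) (κ : ℝ → ℝ) : Prop where
  smooth : ContDiffOn ℝ 1 (fun q : ℝ × ℝ => S q.1 q.2) (Ioo 0 1 ×ˢ univ)
  pos : ∀ c ∈ Ioo (0:ℝ) 1, ∀ θ, 0 < S c θ
  per : ∀ c ∈ Ioo (0:ℝ) 1, ∀ θ, S c (θ + π) = S c θ
  mono : ∀ c ∈ Ioo (0:ℝ) 1, ∀ θ, 0 < deriv (fun t => S t θ) c
  eq : ∀ c ∈ Ioo (0:ℝ) 1, ∀ θ, (S c (next S c θ))⁻¹ - κ (next S c θ) = (S c θ)⁻¹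

variable {S : ℝ → ℝ → ℝ} {κ κ' : ℝ → ℝ}

lemma isOpen_dom : IsOpen (Ioo (0:ℝ) 1 ×ˢ (univ : Set ℝ)) := isOpen_Ioo.prod isOpen_univ

namespace Fam

variable (h : Fam S κ)
include h

lemma contDiffOn : ContDiffOn ℝ 1 (Uf S) (Ioo 0 1 ×ˢ univ) :=
  h.smooth.inv fun q hq => (h.pos q.1 hq.1 q.2).ne'

lemma hasFDerivAt {q : ℝ × ℝ} (hq : q ∈ Ioo (0:ℝ) 1 ×ˢ (univ : Set ℝ)) :
    HasFDerivAt (Uf S) (fderiv ℝ (Uf S) q) q :=
  ((h.contDiffOn.contDiffAt (isOpen_dom.mem_nhds hq)).differentiableAt one_ne_zero).hasFDerivAt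

lemma continuousOn_D1 : ContinuousOn (D1 S) (Ioo 0 1 ×ˢ univ) :=
  (h.contDiffOn.continuousOn_fderiv_of_isOpen isOpen_dom le_rfl).clm_apply continuousOn_const

lemma continuousOn_D2 : ContinuousOn (D2 S) (Ioo 0 1 ×ˢ univ) :=
  (h.contDiffOn.continuousOn_fderiv_of_isOpen isOpen_dom le_rfl).clm_apply continuousOn_const

lemma continuousOn_Uf : ContinuousOn (Uf S) (Ioo 0 1 ×ˢ univ) := h.contDiffOn.continuousOn

lemma continuous_slice {F : ℝ × ℝ → ℝ} (hF : ContinuousOn F (Ioo 0 1 ×ˢ univ)) {c : ℝ}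
    (hc : c ∈ Ioo (0:ℝ) 1) : Continuous fun θ => F (c, θ) :=
  hF.comp_continuous (by fun_prop) fun θ => ⟨hc, mem_univ _⟩

lemma Uf_pos {c : ℝ} (hc : c ∈ Ioo (0:ℝ) 1) (θ : ℝ) : 0 < Uf S (c, θ) :=
  inv_pos.2 (h.pos c hc θ)

/-- chain rule along a curve -/
lemma hasDerivAt_comp {γ₁ γ₂ : ℝ → ℝ} {a b t : ℝ} (h1 : HasDerivAt γ₁ a t)
    (h2 : HasDerivAt γ₂ b t) (hm : γ₁ t ∈ Ioo (0:ℝ) 1) :
    HasDerivAt (fun s => Uf S (γ₁ s, γ₂ s)) (a * D1 S (γ₁ t, γ₂ t) + b * D2 S (γ₁ t, γ₂ t)) t := by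
  have h3 := (h.hasFDerivAt (q := (γ₁ t, γ₂ t)) ⟨hm, mem_univ _⟩).comp_hasDerivAt t
    (h1.prodMk h2)
  refine h3.congr_deriv ?_
  have e : ((a, b) : ℝ × ℝ) = a • ((1, 0) : ℝ × ℝ) + b • ((0, 1) : ℝ × ℝ) := by
    ext <;> simp
  rw [e, map_add, map_smul, map_smul]
  rfl

lemma hasDerivAt_c {c : ℝ} (hc : c ∈ Ioo (0:ℝ) 1) (θ : ℝ) :
    HasDerivAt (fun t => Uf S (t, θ)) (D1 S (c, θ)) c := by
  have := h.hasDerivAt_comp (hasDerivAt_id c) (hasDerivAt_const c θ) hc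
  simpa using this

lemma hasDerivAt_θ {c : ℝ} (hc : c ∈ Ioo (0:ℝ) 1) (θ : ℝ) :
    HasDerivAt (fun t => Uf S (c, t)) (D2 S (c, θ)) θ := by
  have := h.hasDerivAt_comp (hasDerivAt_const θ c) (hasDerivAt_id θ) hc
  simpa using this

lemma Uf_per {c : ℝ} (hc : c ∈ Ioo (0:ℝ) 1) (θ : ℝ) : Uf S (c, θ + π) = Uf S (c, θ) := by
  unfold Uf
  simp only [h.per c hc θ]

lemma D1_per {c : ℝ} (hc : c ∈ Ioo (0:ℝ) 1) (θ : ℝ) : D1 S (c, θ + π) = D1 S (c, θ) := by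
  have h1 := h.hasDerivAt_c hc (θ + π)
  have h2 := h.hasDerivAt_c hc θ
  refine h1.unique (h2.congr_of_eventuallyEq ?_)
  filter_upwards [isOpen_Ioo.mem_nhds hc] with t ht
  exact h.Uf_per ht θ

lemma D2_per {c : ℝ} (hc : c ∈ Ioo (0:ℝ) 1) (θ : ℝ) : D2 S (c, θ + π) = D2 S (c, θ) := by
  have h1 := (h.hasDerivAt_θ hc (θ + π)).comp_add_const θ π
  have h2 := h.hasDerivAt_θ hc θ
  refine h1.unique (h2.congr_of_eventuallyEq ?_)
  exact Filter.Eventually.of_forall fun t => h.Uf_per hc t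

lemma D1_neg {c : ℝ} (hc : c ∈ Ioo (0:ℝ) 1) (θ : ℝ) : D1 S (c, θ) < 0 := by
  have h1 := h.hasDerivAt_c hc θ
  have h2 := h.mono c hc θ
  have hd : DifferentiableAt ℝ (fun t => S t θ) c := by
    by_contra hnd
    rw [deriv_zero_of_not_differentiableAt hnd] at h2
    exact lt_irrefl _ h2
  have h3 := hd.hasDerivAt.inv (h.pos c hc θ).ne'
  have h4 : D1 S (c, θ) = -deriv (fun t => S t θ) c / S c θ ^ 2 := h1.unique h3
  rw [h4, neg_div]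
  have := h.pos c hc θ
  exact neg_lt_zero.2 (by positivity)

lemma next_eq_Uf (c θ : ℝ) : next S c θ = θ + 2 * arctan ((Uf S (c, θ))⁻¹) := by
  unfold next Uf
  rw [inv_inv]

lemma hasDerivAt_next {γ : ℝ → ℝ} {u' t : ℝ} {c θ : ℝ} {f : ℝ → ℝ} {a : ℝ}
    (hf : HasDerivAt f a t) (hγ : HasDerivAt γ u' t) (hpos : 0 < γ t) :
    HasDerivAt (fun s => f s + 2 * arctan ((γ s)⁻¹)) (a - 2 * u' / (1 + γ t ^ 2)) t := by
  have h1 := (hγ.inv hpos.ne').arctan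
  have h2 := hf.add (h1.const_mul 2)
  refine h2.congr_deriv ?_
  have : γ t ≠ 0 := hpos.ne'
  have h3 : (0:ℝ) < 1 + γ t ^ 2 := by positivity
  simp only [Pi.inv_apply]
  field_simp
  ring

lemma hasDerivAt_next_θ {c : ℝ} (hc : c ∈ Ioo (0:ℝ) 1) (θ : ℝ) :
    HasDerivAt (next S c) (1 - 2 * D2 S (c, θ) / (1 + Uf S (c, θ) ^ 2)) θ := by
  have h1 := h.hasDerivAt_next (c := c) (θ := θ) (hasDerivAt_id θ) (h.hasDerivAt_θ hc θ)
    (h.Uf_pos hc θ)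
  refine h1.congr_of_eventuallyEq (Filter.Eventually.of_forall fun t => ?_)
  exact h.next_eq_Uf c t

lemma hasDerivAt_next_c {c : ℝ} (hc : c ∈ Ioo (0:ℝ) 1) (θ : ℝ) :
    HasDerivAt (fun t => next S t θ) (-(2 * D1 S (c, θ) / (1 + Uf S (c, θ) ^ 2))) c := by
  have h1 := h.hasDerivAt_next (c := c) (θ := θ) (hasDerivAt_const c θ) (h.hasDerivAt_c hc θ)
    (h.Uf_pos hc θ)
  have h2 := h1.congr_of_eventuallyEq (f₁ := fun t => next S t θ)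
    (Filter.Eventually.of_forall fun t => h.next_eq_Uf t θ)
  refine h2.congr_deriv ?_
  ring

lemma next_per {c : ℝ} (hc : c ∈ Ioo (0:ℝ) 1) (θ : ℝ) :
    next S c (θ + π) = next S c θ + π := by
  unfold next
  rw [h.per c hc θ]
  ring

lemma feq {c : ℝ} (hc : c ∈ Ioo (0:ℝ) 1) (θ : ℝ) :
    Uf S (c, next S c θ) - κ (next S c θ) = Uf S (c, θ) := h.eq c hc θ

/-- the `θ`-derivative of the functional equation -/
lemma eq_θ (hκ : ∀ θ, HasDerivAt κ (κ' θ) θ) {c : ℝ} (hc : c ∈ Ioo (0:ℝ) 1) (θ : ℝ) :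
    (D2 S (c, next S c θ) - κ' (next S c θ)) *
      (1 - 2 * D2 S (c, θ) / (1 + Uf S (c, θ) ^ 2)) = D2 S (c, θ) := by
  have h1 := h.hasDerivAt_comp (hasDerivAt_const θ c) (h.hasDerivAt_next_θ hc θ) hc
  have h2 := (hκ (next S c θ)).comp θ (h.hasDerivAt_next_θ hc θ)
  have h3 := h1.sub h2
  have h4 := h.hasDerivAt_θ hc θ
  have h5 := h3.unique (h4.congr_of_eventuallyEq
    (Filter.Eventually.of_forall fun t => h.feq hc t))
  linarith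

/-- the `c`-derivative of the functional equation, giving the invariant density -/
lemma eq_c (hκ : ∀ θ, HasDerivAt κ (κ' θ) θ) {c : ℝ} (hc : c ∈ Ioo (0:ℝ) 1) (θ : ℝ) :
    (-D1 S (c, next S c θ)) * (1 - 2 * D2 S (c, θ) / (1 + Uf S (c, θ) ^ 2)) = -D1 S (c, θ) := by
  have h1 := h.hasDerivAt_comp (hasDerivAt_id c) (h.hasDerivAt_next_c hc θ) hc
  have h2 := (hκ (next S c θ)).comp c (h.hasDerivAt_next_c hc θ)
  have h3 := h1.sub h2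
  have h4 := h.hasDerivAt_c hc θ
  have h5 : (fun t => Uf S (id t, next S t θ)) - (κ ∘ fun t => next S t θ) =ᶠ[𝓝 c]
      fun t => Uf S (t, θ) := by
    filter_upwards [isOpen_Ioo.mem_nhds hc] with t ht
    exact h.feq ht θ
  have h6 := h3.unique (h4.congr_of_eventuallyEq h5)
  have h7 := h.eq_θ hκ hc θ
  simp only [id] at h6
  set A := D1 S (c, next S c θ)
  set B := D2 S (c, next S c θ)
  set p := D2 S (c, θ)
  set w := D1 S (c, θ)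
  set Y := 1 + Uf S (c, θ) ^ 2 with hY
  have hYp : 0 < Y := by positivity
  have h8 : A = w + (2 * w / Y) * (B - κ' (next S c θ)) := by linarith
  rw [h8]
  have h9 : -(w + 2 * w / Y * (B - κ' (next S c θ))) * (1 - 2 * p / Y) =
      -(w * (1 - 2 * p / Y)) - 2 * w / Y * ((B - κ' (next S c θ)) * (1 - 2 * p / Y)) := by ring
  rw [h9, h7]
  field_simp
  ring

end Fam

end Pool.Agent.MP_ae5b4e_an
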