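import Mathlib
import Pool.Agent.Lib.MP_ae5b4e_an.Family
import Pool.Agent.Lib.MP_ae5b4e_an.Leaf

/-!
The leaf of rotation number `1/4` in the centrally symmetric case.
-/

noncomputable section

namespace Pool.Agent.MP_ae5b4e_an

open Real Set Filter Topology MeasureTheory intervalIntegral

variable {S : ℝ → ℝ → ℝ} {κ : ℝ → ℝ} {c₀ : ℝ}

/-- The hypotheses on the special leaf. -/
structure Four (S : ℝ → ℝ → ℝ) (κ : ℝ → ℝ) (c₀ : ℝ) : Prop extends Fam S κ where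
  mem : c₀ ∈ Ioo (0:ℝ) 1
  four : ∀ θ, next S c₀ (next S c₀ (next S c₀ (next S c₀ θ))) = θ + 2 * π

namespace Four

variable (h : Four S κ c₀)
include h

lemma continuous_next : Continuous (next S c₀) :=
  continuous_iff_continuousAt.2 fun θ => (h.hasDerivAt_next_θ h.mem θ).continuousAt

lemma strictMono_next : StrictMono (next S c₀) := by
  have hinj : Function.Injective (next S c₀) := by
    intro x y hxy
    have h1 := h.four x
    have h2 := h.four y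
    rw [hxy] at h1
    linarith
  rcases h.continuous_next.strictMono_of_inj hinj with h1 | h1
  · exact h1
  · exfalso
    have h2 := h1 (by simpa using pi_pos : (0:ℝ) < 0 + π)
    rw [h.next_per h.mem] at h2
    linarith [pi_pos]

lemma next_next (θ : ℝ) : next S c₀ (next S c₀ θ) = θ + π := by
  have hm := h.strictMono_next
  rcases lt_trichotomy (next S c₀ (next S c₀ θ)) (θ + π) with h1 | h1 | h1
  · exfalso
    have h2 := hm (hm h1)
    rw [h.four, h.next_per h.mem, h.next_per h.mem] at h2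
    linarith
  · exact h1
  · exfalso
    have h2 := hm (hm h1)
    rw [h.four, h.next_per h.mem, h.next_per h.mem] at h2
    linarith

lemma S_next (θ : ℝ) : S c₀ (next S c₀ θ) = (S c₀ θ)⁻¹ := by
  have h1 := h.next_next θ
  have h2 : next S c₀ (next S c₀ θ) = θ + 2 * arctan (S c₀ θ) +
    2 * arctan (S c₀ (next S c₀ θ)) := rfl
  rw [h2] at h1
  have h3 := arctan_inv_of_pos (h.pos c₀ h.mem θ)
  have h4 : arctan (S c₀ (next S c₀ θ)) = arctan (S c₀ θ)⁻¹ := by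
    rw [h3]; linarith
  exact arctan_injective h4

/-- short name for `1 / S` on the special leaf -/
lemma U_next (θ : ℝ) : Uf S (c₀, next S c₀ θ) = (Uf S (c₀, θ))⁻¹ := by
  unfold Uf
  rw [h.S_next]

lemma surj : Function.Surjective (next S c₀) :=
  surjective_of_shift h.continuous_next (h.next_per h.mem)

lemma κ_eq (θ : ℝ) : κ θ = Uf S (c₀, θ) - (Uf S (c₀, θ))⁻¹ := by
  obtain ⟨φ, rfl⟩ := h.surj θ
  have h1 := h.feq h.mem φ
  have h2 := h.U_next φ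
  rw [h2, inv_inv]
  rw [h2] at h1
  linarith

lemma U_pos (θ : ℝ) : 0 < Uf S (c₀, θ) := h.Uf_pos h.mem θ

/-- the derivative of `κ` -/
def dκ (S : ℝ → ℝ → ℝ) (c₀ θ : ℝ) : ℝ := D2 S (c₀, θ) * (1 + ((Uf S (c₀, θ)) ^ 2)⁻¹)

omit h in
lemma dκ_def (S : ℝ → ℝ → ℝ) (c₀ θ : ℝ) :
    dκ S c₀ θ = D2 S (c₀, θ) * (1 + ((Uf S (c₀, θ)) ^ 2)⁻¹) := rfl

lemma hasDerivAt_κ (θ : ℝ) : HasDerivAt κ (dκ S c₀ θ) θ := by
  have h1 := h.hasDerivAt_θ h.mem θ
  have h2 := h1.sub (h1.inv (h.U_pos θ).ne')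
  have h3 : κ = fun t => Uf S (c₀, t) - (Uf S (c₀, t))⁻¹ := funext h.κ_eq
  rw [h3]
  refine h2.congr_deriv ?_
  rw [dκ_def]
  have := (h.U_pos θ).ne'
  field_simp
  ring

lemma continuous_dκ : Continuous (dκ S c₀) := by
  have h1 : Continuous fun θ => D2 S (c₀, θ) := h.continuous_slice h.continuousOn_D2 h.mem
  have h2 : Continuous fun θ => Uf S (c₀, θ) := h.continuous_slice h.continuousOn_Uf h.mem
  exact h1.mul (continuous_const.add ((h2.pow 2).inv₀ fun θ => (pow_pos (h.U_pos θ) 2).ne'))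

lemma κ_per (θ : ℝ) : κ (θ + π) = κ θ := by
  rw [h.κ_eq, h.κ_eq, h.Uf_per h.mem]

lemma dκ_per (θ : ℝ) : dκ S c₀ (θ + π) = dκ S c₀ θ := by
  rw [dκ_def, dκ_def, h.Uf_per h.mem, h.D2_per h.mem]

lemma continuous_κ : Continuous κ :=
  continuous_iff_continuousAt.2 fun θ => (h.hasDerivAt_κ θ).continuousAt

/-- positivity facts for every leaf -/
lemma pos_facts {c : ℝ} (hc : c ∈ Ioo (0:ℝ) 1) :
    (∀ θ, 0 < 1 - 2 * D2 S (c, θ) / (1 + Uf S (c, θ) ^ 2)) ∧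
    (∀ θ, 0 < 1 + Uf S (c, θ) ^ 2 - D2 S (c, θ)) ∧
    (∀ θ, 0 < 1 + (Uf S (c, θ) - κ θ) ^ 2 + D2 S (c, θ) - dκ S c₀ θ) ∧
    (∀ θ, 0 < (1 + (Uf S (c, θ) - κ θ) ^ 2) + (1 + Uf S (c, θ) ^ 2) - 2 * dκ S c₀ θ) :=
  leaf_pos (y := fun θ => Uf S (c, θ)) (p := fun θ => D2 S (c, θ))
    (w := fun θ => -D1 S (c, θ)) (κ := κ) (κ' := dκ S c₀) (τ := next S c)
    (h.continuous_slice h.continuousOn_Uf hc) (h.hasDerivAt_next_θ hc) (h.next_per hc)
    (h.feq hc) (h.eq_c h.hasDerivAt_κ hc) (h.eq_θ h.hasDerivAt_κ hc)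
    (fun θ => by have := h.D1_neg hc θ; linarith)

/-- derivative of `next` on the special leaf -/
def T0 (S : ℝ → ℝ → ℝ) (c₀ θ : ℝ) : ℝ := 1 - 2 * D2 S (c₀, θ) / (1 + Uf S (c₀, θ) ^ 2)

lemma T0_pos (θ : ℝ) : 0 < T0 S c₀ θ := (h.pos_facts h.mem).1 θ

lemma hasDerivAt_next0 (θ : ℝ) : HasDerivAt (next S c₀) (T0 S c₀ θ) θ :=
  h.hasDerivAt_next_θ h.mem θ

lemma continuous_T0 : Continuous (T0 S c₀) := by
  have h1 : Continuous fun θ => D2 S (c₀, θ) := h.continuous_slice h.continuousOn_D2 h.mem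
  have h2 : Continuous fun θ => Uf S (c₀, θ) := h.continuous_slice h.continuousOn_Uf h.mem
  refine continuous_const.sub ((continuous_const.mul h1).div₀
    (continuous_const.add (h2.pow 2)) fun θ => ?_)
  have : (0:ℝ) < 1 + Uf S (c₀, θ) ^ 2 := by positivity
  exact this.ne'

lemma T0_per (θ : ℝ) : T0 S c₀ (θ + π) = T0 S c₀ θ := by
  unfold T0
  rw [h.Uf_per h.mem, h.D2_per h.mem]

lemma T0_next (θ : ℝ) : T0 S c₀ (next S c₀ θ) * T0 S c₀ θ = 1 := by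
  have h1 := (h.hasDerivAt_next0 (next S c₀ θ)).comp θ (h.hasDerivAt_next0 θ)
  have h2 : HasDerivAt (next S c₀ ∘ next S c₀) 1 θ := by
    have : next S c₀ ∘ next S c₀ = fun t => t + π := funext h.next_next
    rw [this]
    exact (hasDerivAt_id θ).add_const π
  exact h1.unique h2

/-- `v₀ = (U + 1/U)/2` -/
def v0 (S : ℝ → ℝ → ℝ) (c₀ θ : ℝ) : ℝ := (Uf S (c₀, θ) + (Uf S (c₀, θ))⁻¹) / 2

lemma v0_pos (θ : ℝ) : 0 < v0 S c₀ θ := by
  have := h.U_pos θ
  unfold v0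
  positivity

lemma v0_next (θ : ℝ) : v0 S c₀ (next S c₀ θ) = v0 S c₀ θ := by
  unfold v0
  rw [h.U_next, inv_inv, add_comm]

lemma k2_eq (θ : ℝ) : 1 + κ θ ^ 2 / 4 - dκ S c₀ θ / 2 = v0 S c₀ θ ^ 2 * T0 S c₀ θ := by
  have h1 := (h.U_pos θ).ne'
  have h2 : (1 + Uf S (c₀, θ) ^ 2) ≠ 0 := by positivity
  rw [h.κ_eq, dκ_def]
  unfold v0 T0
  field_simp
  ring

lemma k2_pos (θ : ℝ) : 0 < 1 + κ θ ^ 2 / 4 - dκ S c₀ θ / 2 := by
  rw [h.k2_eq]
  exact mul_pos (pow_pos (h.v0_pos θ) 2) (h.T0_pos θ)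

/-- the function `k` -/
def kk (S : ℝ → ℝ → ℝ) (κ : ℝ → ℝ) (c₀ θ : ℝ) : ℝ := √(1 + κ θ ^ 2 / 4 - dκ S c₀ θ / 2)

lemma kk_eq (θ : ℝ) : kk S κ c₀ θ = v0 S c₀ θ * √(T0 S c₀ θ) := by
  unfold kk
  rw [h.k2_eq, sqrt_mul (sq_nonneg _), sqrt_sq (h.v0_pos θ).le]

lemma kk_pos (θ : ℝ) : 0 < kk S κ c₀ θ := sqrt_pos.2 (h.k2_pos θ)

lemma continuous_kk : Continuous (kk S κ c₀) := by
  have h1 := h.continuous_κ
  have h2 := h.continuous_dκ
  unfold kk
  fun_prop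

lemma kk_per (θ : ℝ) : kk S κ c₀ (θ + π) = kk S κ c₀ θ := by
  unfold kk
  rw [h.κ_per, h.dκ_per]

lemma mean_zero : ∫ θ in (0)..π, κ θ = 0 := by
  have hUc : Continuous fun θ => Uf S (c₀, θ) := h.continuous_slice h.continuousOn_Uf h.mem
  have hUi : Continuous fun θ => (Uf S (c₀, θ))⁻¹ := hUc.inv₀ fun θ => (h.U_pos θ).ne'
  have hτπ : next S c₀ π = next S c₀ 0 + π := by simpa using h.next_per h.mem 0
  have h1 := integral_comp_tau h.hasDerivAt_next0 h.continuous_T0 hτπ hUc (h.Uf_per h.mem)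
  -- exact derivative
  have h2 : ∫ θ in (0)..π, (2 * D2 S (c₀, θ) / (Uf S (c₀, θ) * (1 + Uf S (c₀, θ) ^ 2))) = 0 := by
    have hd : ∀ θ ∈ uIcc 0 π, HasDerivAt
        (fun t => 2 * log (Uf S (c₀, t)) - log (1 + Uf S (c₀, t) ^ 2))
        (2 * D2 S (c₀, θ) / (Uf S (c₀, θ) * (1 + Uf S (c₀, θ) ^ 2))) θ := by
      intro θ _
      have hU := h.hasDerivAt_θ h.mem θ
      have hp := h.U_pos θ
      have h3 := (hU.log hp.ne').const_mul 2
      have h4 : (1 + Uf S (c₀, θ) ^ 2) ≠ 0 := by positivity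
      have h5 := ((hU.pow 2).const_add 1).log h4
      refine (h3.sub h5).congr_deriv ?_
      have := hp.ne'
      simp only [Nat.cast_ofNat, Nat.add_one_sub_one, pow_one, Pi.pow_apply]
      field_simp
      ring
    have hcont : Continuous fun θ =>
        2 * D2 S (c₀, θ) / (Uf S (c₀, θ) * (1 + Uf S (c₀, θ) ^ 2)) := by
      have hD : Continuous fun θ => D2 S (c₀, θ) := h.continuous_slice h.continuousOn_D2 h.mem
      refine (continuous_const.mul hD).div₀ (hUc.mul (continuous_const.add (hUc.pow 2))) ?_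
      intro θ
      have := h.U_pos θ
      positivity
    rw [intervalIntegral.integral_eq_sub_of_hasDerivAt hd (hcont.intervalIntegrable _ _)]
    have h6 : Uf S (c₀, π) = Uf S (c₀, 0) := by simpa using h.Uf_per h.mem 0
    rw [h6]
    ring
  have hDc : Continuous fun θ =>
      2 * D2 S (c₀, θ) / (Uf S (c₀, θ) * (1 + Uf S (c₀, θ) ^ 2)) := by
    have hD : Continuous fun θ => D2 S (c₀, θ) := h.continuous_slice h.continuousOn_D2 h.mem
    refine (continuous_const.mul hD).div₀ (hUc.mul (continuous_const.add (hUc.pow 2))) ?_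
    intro θ
    have := h.U_pos θ
    positivity
  have h3 : ∫ θ in (0)..π, Uf S (c₀, next S c₀ θ) * T0 S c₀ θ =
      (∫ θ in (0)..π, (Uf S (c₀, θ))⁻¹) -
      ∫ θ in (0)..π, (2 * D2 S (c₀, θ) / (Uf S (c₀, θ) * (1 + Uf S (c₀, θ) ^ 2))) := by
    rw [← intervalIntegral.integral_sub (hUi.intervalIntegrable _ _) (hDc.intervalIntegrable _ _)]
    refine intervalIntegral.integral_congr fun θ _ => ?_
    rw [h.U_next]
    unfold T0
    have h4 := (h.U_pos θ).ne'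
    have h5 : (1 + Uf S (c₀, θ) ^ 2) ≠ 0 := by positivity
    field_simp
  rw [h3, h2, sub_zero] at h1
  have h4 : ∫ θ in (0)..π, κ θ = (∫ θ in (0)..π, Uf S (c₀, θ)) -
      ∫ θ in (0)..π, (Uf S (c₀, θ))⁻¹ := by
    rw [← intervalIntegral.integral_sub (hUc.intervalIntegrable _ _) (hUi.intervalIntegrable _ _)]
    exact intervalIntegral.integral_congr fun θ _ => h.κ_eq θ
  rw [h4, h1, sub_self]

/-- the symmetrisation trick -/
lemma integral_arctan : ∫ θ in (0)..π, 2 * kk S κ c₀ θ * arctan √(T0 S c₀ θ) =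
    π / 2 * ∫ θ in (0)..π, kk S κ c₀ θ := by
  have hk := h.continuous_kk
  have hT := h.continuous_T0
  have hτπ : next S c₀ π = next S c₀ 0 + π := by simpa using h.next_per h.mem 0
  have hF : Continuous fun θ => 2 * kk S κ c₀ θ * arctan √(T0 S c₀ θ) := by fun_prop
  have h1 := integral_comp_tau h.hasDerivAt_next0 h.continuous_T0 hτπ hF
    (fun θ => by simp only [h.kk_per, h.T0_per])
  have h2 : ∫ θ in (0)..π, 2 * kk S κ c₀ (next S c₀ θ) * arctan √(T0 S c₀ (next S c₀ θ)) *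
      T0 S c₀ θ = π * (∫ θ in (0)..π, kk S κ c₀ θ) -
      ∫ θ in (0)..π, 2 * kk S κ c₀ θ * arctan √(T0 S c₀ θ) := by
    have i1 : IntervalIntegrable (fun θ => π * kk S κ c₀ θ) volume 0 π :=
      (continuous_const.mul hk).intervalIntegrable _ _
    rw [← intervalIntegral.integral_const_mul, ← intervalIntegral.integral_sub
      i1 (hF.intervalIntegrable _ _)]
    refine intervalIntegral.integral_congr fun θ _ => ?_
    have e1 := h.T0_pos θ
    have e2 : T0 S c₀ (next S c₀ θ) = (T0 S c₀ θ)⁻¹ :=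
      eq_inv_of_mul_eq_one_left (h.T0_next θ)
    rw [h.kk_eq (next S c₀ θ), h.kk_eq θ, h.v0_next, e2, sqrt_inv,
      arctan_inv_of_pos (sqrt_pos.2 e1)]
    have e3 : √(T0 S c₀ θ) ^ 2 = T0 S c₀ θ := sq_sqrt e1.le
    have e4 : √(T0 S c₀ θ) ≠ 0 := (sqrt_pos.2 e1).ne'
    have e5 : (√(T0 S c₀ θ))⁻¹ * T0 S c₀ θ = √(T0 S c₀ θ) := by
      rw [inv_mul_eq_div, div_eq_iff e4, ← sq, e3]
    calc 2 * (v0 S c₀ θ * (√(T0 S c₀ θ))⁻¹) * (π / 2 - arctan √(T0 S c₀ θ)) * T0 S c₀ θ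
        = 2 * v0 S c₀ θ * (π / 2 - arctan √(T0 S c₀ θ)) * ((√(T0 S c₀ θ))⁻¹ * T0 S c₀ θ) := by
          ring
      _ = _ := by rw [e5]; ring
  rw [h2] at h1
  linarith

end Four

end Pool.Agent.MP_ae5b4e_an
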