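import Mathlib

/-!
Wirtinger's inequality for antiperiodic functions, with the case of equality.
-/

noncomputable section

namespace Pool.Agent.MP_ae5b4e_an

open Real Set Filter Topology MeasureTheory intervalIntegral

variable {w w' : ℝ → ℝ}

/-- derivative of `w ^ 2 * cot` -/
lemma hasDerivAt_sq_cot {θ : ℝ} (hw : HasDerivAt w (w' θ) θ) (hs : sin θ ≠ 0) :
    HasDerivAt (fun t => w t ^ 2 * (cos t / sin t))
      ((w' θ ^ 2 - w θ ^ 2) - (w' θ - w θ * (cos θ / sin θ)) ^ 2) θ := by
  have h1 : HasDerivAt (fun t => cos t / sin t)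
      (((-sin θ) * sin θ - cos θ * cos θ) / sin θ ^ 2) θ :=
    (hasDerivAt_cos θ).div (hasDerivAt_sin θ) hs
  have h2 := (hw.pow 2).mul h1
  refine h2.congr_deriv ?_
  have h3 : sin θ ^ 2 + cos θ ^ 2 = 1 := sin_sq_add_cos_sq θ
  have h4 : cos θ ^ 2 = 1 - sin θ ^ 2 := by linarith
  simp only [Nat.cast_ofNat, Nat.add_one_sub_one, pow_one, Pi.pow_apply]
  field_simp
  ring

/-- the key limit at a zero of the sine -/
lemma tendsto_sq_cot (hw : HasDerivAt w (w' 0) 0) (h0 : w 0 = 0) :
    Tendsto (fun t => w t ^ 2 * (cos t / sin t)) (𝓝[≠] 0) (𝓝 0) := by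
  have h1 : Tendsto (fun t => w t / t) (𝓝[≠] 0) (𝓝 (w' 0)) := by
    have := hw.tendsto_slope
    refine this.congr' ?_
    filter_upwards with t
    simp [slope_def_field, h0]
  have h2 : Tendsto (fun t => sin t / t) (𝓝[≠] 0) (𝓝 1) := by
    have := (hasDerivAt_sin 0).tendsto_slope
    rw [cos_zero] at this
    refine this.congr' ?_
    filter_upwards with t
    simp [slope_def_field]
  have h3 : Tendsto w (𝓝[≠] 0) (𝓝 0) := by
    have := hw.continuousAt.tendsto
    rw [h0] at this
    exact this.mono_left nhdsWithin_le_nhds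
  have h4 : Tendsto cos (𝓝[≠] 0) (𝓝 1) := by
    have := continuous_cos.tendsto 0
    rw [cos_zero] at this
    exact this.mono_left nhdsWithin_le_nhds
  have h5 := ((h3.mul (h1.div h2 one_ne_zero)).mul h4)
  rw [zero_mul, zero_mul] at h5
  refine h5.congr' ?_
  have h6 : ∀ᶠ t in 𝓝[≠] (0:ℝ), t ≠ 0 := self_mem_nhdsWithin
  filter_upwards [h6] with t ht
  simp only [Pi.div_apply]
  by_cases hs : sin t = 0
  · simp [hs]
  · field_simp

/-- Wirtinger on `[0, π]`, first step. -/
lemma wirtinger_aux (hw : ∀ θ, HasDerivAt w (w' θ) θ) (hw' : Continuous w')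
    (h0 : w 0 = 0) (hπ : w π = 0) :
    Tendsto (fun ε => ∫ θ in ε..(π - ε), (w' θ - w θ * (cos θ / sin θ)) ^ 2) (𝓝[>] 0)
      (𝓝 (∫ θ in (0)..π, (w' θ ^ 2 - w θ ^ 2))) := by
  have hwc : Continuous w := continuous_iff_continuousAt.2 fun θ => (hw θ).continuousAt
  have hc : Continuous fun θ => w' θ ^ 2 - w θ ^ 2 := by fun_prop
  -- the identity for small ε
  have hid : ∀ᶠ ε in 𝓝[>] (0:ℝ),
      (∫ θ in ε..(π - ε), (w' θ ^ 2 - w θ ^ 2)) -
        (w (π - ε) ^ 2 * (cos (π - ε) / sin (π - ε)) - w ε ^ 2 * (cos ε / sin ε)) =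
      ∫ θ in ε..(π - ε), (w' θ - w θ * (cos θ / sin θ)) ^ 2 := by
    have h1 : ∀ᶠ ε in 𝓝[>] (0:ℝ), ε < π / 2 :=
      (eventually_lt_nhds (by positivity : (0:ℝ) < π / 2)).filter_mono nhdsWithin_le_nhds
    filter_upwards [h1, self_mem_nhdsWithin] with ε he1 he2
    have he2 : 0 < ε := he2
    have hsin : ∀ θ ∈ uIcc ε (π - ε), sin θ ≠ 0 := by
      intro θ hθ
      rw [uIcc_of_le (by linarith)] at hθ
      exact (sin_pos_of_pos_of_lt_pi (by linarith [hθ.1]) (by linarith [hθ.2])).ne'
    have hcon : ContinuousOn (fun θ => (w' θ - w θ * (cos θ / sin θ)) ^ 2) (uIcc ε (π - ε)) := by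
      refine ContinuousOn.pow (hw'.continuousOn.sub (hwc.continuousOn.mul
        (continuous_cos.continuousOn.div continuous_sin.continuousOn hsin))) 2
    have hF := integral_eq_sub_of_hasDerivAt (a := ε) (b := π - ε)
      (f := fun t => w t ^ 2 * (cos t / sin t))
      (f' := fun θ => (w' θ ^ 2 - w θ ^ 2) - (w' θ - w θ * (cos θ / sin θ)) ^ 2)
      (fun θ hθ => hasDerivAt_sq_cot (hw θ) (hsin θ hθ))
      ((hc.continuousOn.sub hcon).intervalIntegrable)
    rw [intervalIntegral.integral_sub (hc.continuousOn.intervalIntegrable)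
      hcon.intervalIntegrable] at hF
    linarith
  refine Tendsto.congr' hid ?_
  have hA : Tendsto (fun ε : ℝ => ∫ θ in ε..(π - ε), (w' θ ^ 2 - w θ ^ 2)) (𝓝[>] 0)
      (𝓝 (∫ θ in (0)..π, (w' θ ^ 2 - w θ ^ 2))) := by
    have hcont : Continuous fun ε : ℝ => ∫ θ in ε..(π - ε), (w' θ ^ 2 - w θ ^ 2) := by
      have e : (fun ε : ℝ => ∫ θ in ε..(π - ε), (w' θ ^ 2 - w θ ^ 2)) =
          fun ε : ℝ => (∫ θ in (0)..(π - ε), (w' θ ^ 2 - w θ ^ 2)) -
            ∫ θ in (0)..ε, (w' θ ^ 2 - w θ ^ 2) := by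
        funext ε
        rw [intervalIntegral.integral_interval_sub_left (hc.intervalIntegrable _ _)
          (hc.intervalIntegrable _ _)]
      rw [e]
      have h1 : Continuous fun x : ℝ => ∫ θ in (0)..x, (w' θ ^ 2 - w θ ^ 2) :=
        intervalIntegral.continuous_primitive (fun a b => hc.intervalIntegrable a b) 0
      exact (h1.comp (by fun_prop : Continuous fun ε : ℝ => π - ε)).sub h1
    have := hcont.tendsto 0
    simp only [sub_zero] at this
    exact this.mono_left nhdsWithin_le_nhds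
  have hB : Tendsto (fun ε => w ε ^ 2 * (cos ε / sin ε)) (𝓝[>] 0) (𝓝 0) :=
    (tendsto_sq_cot (hw 0) h0).mono_left (nhdsWithin_mono _ fun x hx => ne_of_gt hx)
  have hC : Tendsto (fun ε => w (π - ε) ^ 2 * (cos (π - ε) / sin (π - ε))) (𝓝[>] 0) (𝓝 0) := by
    have hd : HasDerivAt (fun t => w (π - t)) ((fun t => -w' (π - t)) 0) 0 := by
      have h1 : HasDerivAt (fun t : ℝ => π - t) (-1) 0 := by
        simpa using (hasDerivAt_id (0:ℝ)).const_sub π
      have h2 : HasDerivAt w (w' (π - 0)) (π - 0) := hw _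
      have h3 : HasDerivAt (fun t => w (π - t)) (w' (π - 0) * (-1)) 0 := h2.comp (0:ℝ) h1
      exact h3.congr_deriv (by ring)
    have h4 := tendsto_sq_cot (w := fun t => w (π - t)) (w' := fun t => -w' (π - t)) hd
      (by simpa using hπ)
    have h5 := (h4.mono_left (nhdsWithin_mono (s := Ioi 0) (0:ℝ) fun x hx => ne_of_gt hx)).neg
    rw [neg_zero] at h5
    refine h5.congr fun t => ?_
    rw [cos_pi_sub, sin_pi_sub]
    ring
  have := hA.sub (hC.sub hB)
  simpa using this

lemma wirtinger_nonneg_aux (hw : ∀ θ, HasDerivAt w (w' θ) θ) (hw' : Continuous w')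
    (h0 : w 0 = 0) (hπ : w π = 0) :
    0 ≤ ∫ θ in (0)..π, (w' θ ^ 2 - w θ ^ 2) := by
  refine ge_of_tendsto (wirtinger_aux hw hw' h0 hπ) ?_
  have h1 : ∀ᶠ ε in 𝓝[>] (0:ℝ), ε < π / 2 :=
    (eventually_lt_nhds (by positivity : (0:ℝ) < π / 2)).filter_mono nhdsWithin_le_nhds
  filter_upwards [h1] with ε he
  exact intervalIntegral.integral_nonneg (by linarith) fun θ _ => sq_nonneg _

lemma wirtinger_eq_aux (hw : ∀ θ, HasDerivAt w (w' θ) θ) (hw' : Continuous w')
    (h0 : w 0 = 0) (hπ : w π = 0) (he : ∫ θ in (0)..π, (w' θ ^ 2 - w θ ^ 2) = 0) :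
    ∀ θ ∈ Icc 0 π, w θ = w (π / 2) * sin θ := by
  have hwc : Continuous w := continuous_iff_continuousAt.2 fun θ => (hw θ).continuousAt
  have hlim := wirtinger_aux hw hw' h0 hπ
  rw [he] at hlim
  -- the integrand vanishes
  have hcon : ContinuousOn (fun θ => (w' θ - w θ * (cos θ / sin θ)) ^ 2) (Ioo 0 π) := by
    refine ContinuousOn.pow (hw'.continuousOn.sub (hwc.continuousOn.mul
      (continuous_cos.continuousOn.div continuous_sin.continuousOn ?_))) 2
    intro θ hθ
    exact (sin_pos_of_pos_of_lt_pi hθ.1 hθ.2).ne'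
  have hzero : ∀ ε, 0 < ε → ε < π / 2 →
      ∫ θ in ε..(π - ε), (w' θ - w θ * (cos θ / sin θ)) ^ 2 = 0 := by
    intro ε he1 he2
    have hle : ∫ θ in ε..(π - ε), (w' θ - w θ * (cos θ / sin θ)) ^ 2 ≤ 0 := by
      refine ge_of_tendsto hlim ?_
      have h1 : ∀ᶠ δ in 𝓝[>] (0:ℝ), δ < ε :=
        (eventually_lt_nhds he1).filter_mono nhdsWithin_le_nhds
      filter_upwards [h1, self_mem_nhdsWithin] with δ hd1 hd2
      have hd2 : 0 < δ := hd2
      have hsub : uIcc δ (π - δ) ⊆ Ioo 0 π := by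
        rw [uIcc_of_le (by linarith)]
        intro x hx
        exact ⟨by linarith [hx.1], by linarith [hx.2]⟩
      refine intervalIntegral.integral_mono_interval hd1.le (by linarith) (by linarith) ?_ ?_
      · exact Filter.Eventually.of_forall fun x => sq_nonneg _
      · exact (hcon.mono hsub).intervalIntegrable
    exact le_antisymm hle
      (intervalIntegral.integral_nonneg (by linarith) fun θ _ => sq_nonneg _)
  have hpt : ∀ θ ∈ Ioo 0 π, w' θ - w θ * (cos θ / sin θ) = 0 := by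
    intro θ hθ
    by_contra hne
    set ε := min (θ / 2) (min ((π - θ) / 2) (π / 4)) with hε
    have hθ1 := hθ.1
    have hθ2 := hθ.2
    have hpi := pi_pos
    have e0 : 0 < ε := by
      rw [hε]; exact lt_min (by linarith) (lt_min (by linarith) (by linarith))
    have e1 : ε ≤ θ / 2 := min_le_left _ _
    have e2 : ε ≤ (π - θ) / 2 := (min_le_right _ _).trans (min_le_left _ _)
    have e3 : ε ≤ π / 4 := (min_le_right _ _).trans (min_le_right _ _)
    have hpos : 0 < ∫ θ in ε..(π - ε), (w' θ - w θ * (cos θ / sin θ)) ^ 2 := by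
      refine intervalIntegral.integral_pos (by linarith) ?_ (fun x _ => sq_nonneg _) ?_
      · refine hcon.mono fun x hx => ⟨by linarith [hx.1], by linarith [hx.2]⟩
      · exact ⟨θ, ⟨by linarith, by linarith⟩, by positivity⟩
    rw [hzero ε e0 (by linarith)] at hpos
    exact lt_irrefl _ hpos
  -- w / sin is constant
  have hquot : ∀ θ ∈ Ioo 0 π, HasDerivAt (fun t => w t / sin t) 0 θ := by
    intro θ hθ
    have hs : sin θ ≠ 0 := (sin_pos_of_pos_of_lt_pi hθ.1 hθ.2).ne'
    have h1 := (hw θ).div (hasDerivAt_sin θ) hs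
    refine h1.congr_deriv ?_
    have h2 := hpt θ hθ
    have h3 : w' θ * sin θ - w θ * cos θ = 0 := by
      have : w' θ * sin θ - w θ * cos θ = (w' θ - w θ * (cos θ / sin θ)) * sin θ := by
        field_simp
      rw [this, h2, zero_mul]
    rw [h3, zero_div]
  have hconst : ∀ θ ∈ Ioo 0 π, w θ / sin θ = w (π / 2) := by
    intro θ hθ
    have hmem : π / 2 ∈ Ioo 0 π := ⟨by positivity, by linarith [pi_pos]⟩
    have h1 : (fun t => w t / sin t) θ = (fun t => w t / sin t) (π / 2) := by
      refine IsOpen.is_const_of_deriv_eq_zero (𝕜 := ℝ) (s := Ioo 0 π)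
        (f := fun t => w t / sin t) isOpen_Ioo isPreconnected_Ioo ?_ ?_ hθ hmem
      · intro t ht
        exact (hquot t ht).differentiableAt.differentiableWithinAt
      · intro t ht
        exact (hquot t ht).deriv
    simpa using h1
  intro θ hθ
  rcases eq_or_lt_of_le hθ.1 with h | h
  · rw [← h, h0]; simp
  rcases eq_or_lt_of_le hθ.2 with h' | h'
  · rw [h', hπ]; simp
  have hs : sin θ ≠ 0 := (sin_pos_of_pos_of_lt_pi h h').ne'
  have := hconst θ ⟨h, h'⟩
  field_simp at this
  rw [this]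
  ring

/-- Wirtinger's inequality for functions with `w (θ + π) = - w θ`. -/
theorem wirtinger (hw : ∀ θ, HasDerivAt w (w' θ) θ) (hw' : Continuous w')
    (hanti : ∀ θ, w (θ + π) = -w θ) :
    0 ≤ ∫ θ in (0)..π, (w' θ ^ 2 - w θ ^ 2) ∧
    ((∫ θ in (0)..π, (w' θ ^ 2 - w θ ^ 2)) = 0 → ∃ A B : ℝ, ∀ θ, w θ = A * cos θ + B * sin θ) := by
  have hwc : Continuous w := continuous_iff_continuousAt.2 fun θ => (hw θ).continuousAt
  -- a zero of w
  obtain ⟨z, hz⟩ : ∃ z, w z = 0 := by
    have h1 : w π = -w 0 := by simpa using hanti 0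
    have hmem : (0:ℝ) ∈ uIcc (w 0) (w π) := by
      rw [h1]
      rcases le_total 0 (w 0) with h | h
      · exact mem_uIcc.2 (Or.inr ⟨by linarith, h⟩)
      · exact mem_uIcc.2 (Or.inl ⟨h, by linarith⟩)
    obtain ⟨z, -, hz⟩ := intermediate_value_uIcc hwc.continuousOn hmem
    exact ⟨z, hz⟩
  -- antiperiodicity of the derivative
  have hanti' : ∀ θ, w' (θ + π) = -w' θ := by
    intro θ
    have h1 : HasDerivAt (fun t => w (t + π)) (w' (θ + π)) θ := by
      simpa using (hw (θ + π)).comp_add_const θ π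
    have h2 : HasDerivAt (fun t => w (t + π)) (-w' θ) θ := by
      have : (fun t => w (t + π)) = fun t => -w t := funext hanti
      rw [this]
      exact (hw θ).neg
    exact h1.unique h2
  -- shift to the zero
  set v : ℝ → ℝ := fun t => w (t + z) with hv
  set v' : ℝ → ℝ := fun t => w' (t + z) with hv'
  have hvd : ∀ θ, HasDerivAt v (v' θ) θ := fun θ => by
    simpa using (hw (θ + z)).comp_add_const θ z
  have hvc : Continuous v' := by
    rw [hv']; exact hw'.comp (by fun_prop)
  have hv0 : v 0 = 0 := by simp [hv, hz]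
  have hvπ : v π = 0 := by
    have : v π = w (z + π) := by rw [hv]; simp [add_comm]
    rw [this, hanti, hz, neg_zero]
  have hper : Function.Periodic (fun θ => w' θ ^ 2 - w θ ^ 2) π := by
    intro θ
    show w' (θ + π) ^ 2 - w (θ + π) ^ 2 = w' θ ^ 2 - w θ ^ 2
    rw [hanti, hanti']
    ring
  have hint : ∫ θ in (0)..π, (v' θ ^ 2 - v θ ^ 2) = ∫ θ in (0)..π, (w' θ ^ 2 - w θ ^ 2) := by
    have h1 : ∫ θ in (0)..π, (v' θ ^ 2 - v θ ^ 2) =
        ∫ θ in (0 + z)..(π + z), (w' θ ^ 2 - w θ ^ 2) := by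
      rw [← intervalIntegral.integral_comp_add_right (fun θ => w' θ ^ 2 - w θ ^ 2)]
    rw [h1]
    have h2 := hper.intervalIntegral_add_eq z 0
    simp only [zero_add] at h2 ⊢
    rw [add_comm π z]
    exact h2
  constructor
  · rw [← hint]
    exact wirtinger_nonneg_aux hvd hvc hv0 hvπ
  · intro he
    rw [← hint] at he
    have h1 := wirtinger_eq_aux hvd hvc hv0 hvπ he
    set A := v (π / 2) with hA
    -- extend to all reals
    have h2 : ∀ n : ℕ, ∀ t ∈ Icc 0 π, w (t + z + n * π) = (-1) ^ n * (A * sin t) ∧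
        w (t + z - n * π) = (-1) ^ n * (A * sin t) := by
      intro n
      induction n with
      | zero =>
        intro t ht
        have := h1 t ht
        simp only [hv] at this
        simp [this, hA, hv]
      | succ n ih =>
        intro t ht
        obtain ⟨i1, i2⟩ := ih t ht
        constructor
        · have : t + z + (n + 1 : ℕ) * π = (t + z + n * π) + π := by push_cast; ring
          rw [this, hanti, i1, pow_succ]; ring
        · have h3 := hanti (t + z - (n + 1 : ℕ) * π)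
          have h4 : t + z - (n + 1 : ℕ) * π + π = t + z - n * π := by push_cast; ring
          rw [h4, i2] at h3
          rw [pow_succ]
          linarith
    refine ⟨-A * sin z, A * cos z, fun θ => ?_⟩
    -- write θ = t + z + k π
    obtain ⟨k, t, ht0, htπ, hk⟩ : ∃ (k : ℤ) (t : ℝ), 0 ≤ t ∧ t ≤ π ∧ θ = t + z + k * π := by
      refine ⟨⌊(θ - z) / π⌋, (θ - z) - ⌊(θ - z) / π⌋ * π, ?_, ?_, by ring⟩
      · have := Int.floor_le ((θ - z) / π)
        rw [le_div_iff₀ pi_pos] at this
        linarith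
      · have := (Int.lt_floor_add_one ((θ - z) / π)).le
        rw [div_le_iff₀ pi_pos] at this
        linarith
    have hkey : w θ = (-1) ^ k * (A * sin t) := by
      rw [hk]
      rcases Int.le_total 0 k with h | h
      · obtain ⟨n, rfl⟩ := Int.eq_ofNat_of_zero_le h
        have := (h2 n t ⟨ht0, htπ⟩).1
        simpa using this
      · obtain ⟨n, hn⟩ := Int.eq_ofNat_of_zero_le (by omega : 0 ≤ -k)
        have hk' : k = -(n : ℤ) := by omega
        subst hk'
        have := (h2 n t ⟨ht0, htπ⟩).2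
        have e1 : t + z + ((-(n : ℤ) : ℤ) : ℝ) * π = t + z - n * π := by push_cast; ring
        rw [e1, this]
        congr 1
        rw [zpow_neg, zpow_natCast]
        rcases neg_one_pow_eq_or ℝ n with h' | h' <;> rw [h'] <;> norm_num
    have hsin : A * sin (θ - z) = (-1) ^ k * (A * sin t) := by
      have e : θ - z = t + k * π := by rw [hk]; ring
      rw [e, sin_add_int_mul_pi]
      ring
    rw [hkey, ← hsin, sin_sub]
    ring

end Pool.Agent.MP_ae5b4e_an
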