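import Mathlib
import Pool.Agent.Lib.MP_ae5b4e_an.Wirtinger

/-!
The inequality `∫_0^π sqrt (1 + κ²/4 - κ'/2) ≤ π` for `π`-periodic `κ` with mean zero
(a form of the Blaschke-Santalo inequality), with the case of equality.
-/

noncomputable section

namespace Pool.Agent.MP_ae5b4e_an

open Real Set Filter Topology MeasureTheory intervalIntegral

theorem sqrt_integral_le {κ κ' : ℝ → ℝ} (hκ : ∀ θ, HasDerivAt κ (κ' θ) θ) (hκ' : Continuous κ')
    (hper : ∀ θ, κ (θ + π) = κ θ) (hmean : ∫ θ in (0)..π, κ θ = 0)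
    (hpos : ∀ θ, 0 < 1 + κ θ ^ 2 / 4 - κ' θ / 2) :
    (∫ θ in (0)..π, √(1 + κ θ ^ 2 / 4 - κ' θ / 2)) ≤ π ∧
    (π ≤ (∫ θ in (0)..π, √(1 + κ θ ^ 2 / 4 - κ' θ / 2)) →
      ∃ a b d : ℝ, 0 < a ∧ b ^ 2 < a * d ∧
        (∀ θ, 0 < a * cos θ ^ 2 + 2 * b * cos θ * sin θ + d * sin θ ^ 2) ∧
        (∀ θ, 2 * (d - a) * cos θ * sin θ + 2 * b * (cos θ ^ 2 - sin θ ^ 2) =
          - κ θ * (a * cos θ ^ 2 + 2 * b * cos θ * sin θ + d * sin θ ^ 2))) := by
  have hκc : Continuous κ := continuous_iff_continuousAt.2 fun θ => (hκ θ).continuousAt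
  -- the function r
  set K : ℝ → ℝ := fun θ => ∫ t in (0)..θ, κ t with hK
  have hKd : ∀ θ, HasDerivAt K (κ θ) θ := fun θ =>
    intervalIntegral.integral_hasDerivAt_right (hκc.intervalIntegrable _ _)
      (hκc.stronglyMeasurableAtFilter _ _) hκc.continuousAt
  have hKper : ∀ θ, K (θ + π) = K θ := by
    intro θ
    have h1 : K (θ + π) - K θ = ∫ t in θ..(θ + π), κ t := by
      rw [hK]
      simp only
      rw [intervalIntegral.integral_interval_sub_left (hκc.intervalIntegrable _ _)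
        (hκc.intervalIntegrable _ _)]
    have h2 : Function.Periodic κ π := hper
    rw [h2.intervalIntegral_add_eq θ 0, zero_add, hmean] at h1
    linarith
  set r : ℝ → ℝ := fun θ => exp (-K θ / 2) with hr
  have hrpos : ∀ θ, 0 < r θ := fun θ => exp_pos _
  set r' : ℝ → ℝ := fun θ => -(κ θ / 2) * r θ with hr'
  set r'' : ℝ → ℝ := fun θ => (κ θ ^ 2 / 4 - κ' θ / 2) * r θ with hr''
  have hrd : ∀ θ, HasDerivAt r (r' θ) θ := by
    intro θ
    have h1 : HasDerivAt (fun t => -K t / 2) (-κ θ / 2) θ := ((hKd θ).neg).div_const 2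
    have h2 := h1.exp
    refine h2.congr_deriv ?_
    simp only [hr', hr]
    ring
  have hrd' : ∀ θ, HasDerivAt r' (r'' θ) θ := by
    intro θ
    have h1 : HasDerivAt (fun t => -(κ t / 2)) (-(κ' θ / 2)) θ := ((hκ θ).div_const 2).neg
    have h2 := h1.mul (hrd θ)
    refine h2.congr_deriv ?_
    simp only [hr', hr'']
    ring
  have hrc : Continuous r := continuous_iff_continuousAt.2 fun θ => (hrd θ).continuousAt
  have hrc' : Continuous r' := continuous_iff_continuousAt.2 fun θ => (hrd' θ).continuousAt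
  have hrper : ∀ θ, r (θ + π) = r θ := fun θ => by simp only [hr, hKper]
  have hrper' : ∀ θ, r' (θ + π) = r' θ := fun θ => by simp only [hr', hrper, hper]
  -- the time
  have hinvc : Continuous fun θ => (r θ ^ 2)⁻¹ :=
    (hrc.pow 2).inv₀ fun θ => (pow_pos (hrpos θ) 2).ne'
  set P : ℝ := ∫ θ in (0)..π, (r θ ^ 2)⁻¹ with hP
  have hPpos : 0 < P := by
    refine intervalIntegral.intervalIntegral_pos_of_pos_on (hinvc.intervalIntegrable _ _) ?_ pi_pos
    intro θ _
    have := hrpos θ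
    positivity
  set ϑ : ℝ → ℝ := fun θ => (π / P) * ∫ t in (0)..θ, (r t ^ 2)⁻¹ with hϑ
  have hϑd : ∀ θ, HasDerivAt ϑ ((π / P) * (r θ ^ 2)⁻¹) θ := fun θ =>
    (intervalIntegral.integral_hasDerivAt_right (hinvc.intervalIntegrable _ _)
      (hinvc.stronglyMeasurableAtFilter _ _) hinvc.continuousAt).const_mul _
  have hϑper : ∀ θ, ϑ (θ + π) = ϑ θ + π := by
    intro θ
    have h1 : (∫ t in (0)..(θ + π), (r t ^ 2)⁻¹) - (∫ t in (0)..θ, (r t ^ 2)⁻¹) =
        ∫ t in θ..(θ + π), (r t ^ 2)⁻¹ := by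
      rw [intervalIntegral.integral_interval_sub_left (hinvc.intervalIntegrable _ _)
        (hinvc.intervalIntegrable _ _)]
    have h2 : Function.Periodic (fun t => (r t ^ 2)⁻¹) π := fun t => by
      simp only [hrper]
    rw [h2.intervalIntegral_add_eq θ 0, zero_add] at h1
    simp only [hϑ]
    have h3 : (∫ t in (0)..(θ + π), (r t ^ 2)⁻¹) = (∫ t in (0)..θ, (r t ^ 2)⁻¹) + P := by
      rw [hP]; linarith
    rw [h3, mul_add, div_mul_cancel₀ _ hPpos.ne']
  -- the two test functions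
  set w1 : ℝ → ℝ := fun θ => r θ * cos (ϑ θ) with hw1
  set w1' : ℝ → ℝ := fun θ => r' θ * cos (ϑ θ) - (π / P) * (r θ)⁻¹ * sin (ϑ θ) with hw1'
  set w2 : ℝ → ℝ := fun θ => r θ * sin (ϑ θ) with hw2
  set w2' : ℝ → ℝ := fun θ => r' θ * sin (ϑ θ) + (π / P) * (r θ)⁻¹ * cos (ϑ θ) with hw2'
  have hϑc : Continuous ϑ := continuous_iff_continuousAt.2 fun θ => (hϑd θ).continuousAt
  have hrinvc : Continuous fun θ => (r θ)⁻¹ := hrc.inv₀ fun θ => (hrpos θ).ne'
  have hw1d : ∀ θ, HasDerivAt w1 (w1' θ) θ := by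
    intro θ
    have h1 := (hrd θ).mul ((hϑd θ).cos)
    refine h1.congr_deriv ?_
    have := (hrpos θ).ne'
    simp only [hw1']
    field_simp
    ring
  have hw2d : ∀ θ, HasDerivAt w2 (w2' θ) θ := by
    intro θ
    have h1 := (hrd θ).mul ((hϑd θ).sin)
    refine h1.congr_deriv ?_
    have := (hrpos θ).ne'
    simp only [hw2']
    field_simp
  have hw1c : Continuous w1' := by simp only [hw1']; fun_prop
  have hw2c : Continuous w2' := by simp only [hw2']; fun_prop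
  have hw1a : ∀ θ, w1 (θ + π) = -w1 θ := fun θ => by
    simp only [hw1, hrper, hϑper, cos_add_pi]; ring
  have hw2a : ∀ θ, w2 (θ + π) = -w2 θ := fun θ => by
    simp only [hw2, hrper, hϑper, sin_add_pi]; ring
  obtain ⟨hW1, hE1⟩ := wirtinger hw1d hw1c hw1a
  obtain ⟨hW2, hE2⟩ := wirtinger hw2d hw2c hw2a
  have hw1cc : Continuous w1 := continuous_iff_continuousAt.2 fun θ => (hw1d θ).continuousAt
  have hw2cc : Continuous w2 := continuous_iff_continuousAt.2 fun θ => (hw2d θ).continuousAt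
  have hi1 : IntervalIntegrable (fun θ => w1' θ ^ 2 - w1 θ ^ 2) volume 0 π :=
    ((hw1c.pow 2).sub (hw1cc.pow 2)).intervalIntegrable _ _
  have hi2 : IntervalIntegrable (fun θ => w2' θ ^ 2 - w2 θ ^ 2) volume 0 π :=
    ((hw2c.pow 2).sub (hw2cc.pow 2)).intervalIntegrable _ _
  have hiR : IntervalIntegrable (fun θ => r' θ ^ 2 - r θ ^ 2) volume 0 π :=
    ((hrc'.pow 2).sub (hrc.pow 2)).intervalIntegrable _ _
  have hsum : (∫ θ in (0)..π, (w1' θ ^ 2 - w1 θ ^ 2)) + (∫ θ in (0)..π, (w2' θ ^ 2 - w2 θ ^ 2)) =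
      (∫ θ in (0)..π, (r' θ ^ 2 - r θ ^ 2)) + π ^ 2 / P := by
    rw [← intervalIntegral.integral_add hi1 hi2]
    have h1 : π ^ 2 / P = ∫ θ in (0)..π, (π / P) ^ 2 * (r θ ^ 2)⁻¹ := by
      rw [intervalIntegral.integral_const_mul, ← hP]
      field_simp
    have hiP : IntervalIntegrable (fun θ => (π / P) ^ 2 * (r θ ^ 2)⁻¹) volume 0 π :=
      (continuous_const.mul hinvc).intervalIntegrable _ _
    rw [h1, ← intervalIntegral.integral_add hiR hiP]
    refine intervalIntegral.integral_congr fun θ _ => ?_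
    simp only [hw1, hw2, hw1', hw2']
    have h2 : sin (ϑ θ) ^ 2 = 1 - cos (ϑ θ) ^ 2 := by
      have := sin_sq_add_cos_sq (ϑ θ); linarith
    have h3 := (hrpos θ).ne'
    field_simp
    ring_nf
    rw [h2]
    ring
  -- the integral of k² r²
  have hk2 : ∫ θ in (0)..π, (1 + κ θ ^ 2 / 4 - κ' θ / 2) * r θ ^ 2 =
      -(∫ θ in (0)..π, (r' θ ^ 2 - r θ ^ 2)) := by
    have h1 : ∫ θ in (0)..π, (r' θ * r' θ + r θ * r'' θ) = r π * r' π - r 0 * r' 0 := by
      refine intervalIntegral.integral_eq_sub_of_hasDerivAt (f := fun θ => r θ * r' θ)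
        (fun θ _ => (hrd θ).mul (hrd' θ)) ?_
      have : Continuous r'' := by simp only [hr'']; fun_prop
      exact ((hrc'.mul hrc').add (hrc.mul this)).intervalIntegrable _ _
    have h2 : r π = r 0 := by simpa using hrper 0
    have h3 : r' π = r' 0 := by simpa using hrper' 0
    rw [h2, h3, sub_self] at h1
    have hr''c : Continuous r'' := by simp only [hr'']; fun_prop
    have h4 : ∫ θ in (0)..π, (1 + κ θ ^ 2 / 4 - κ' θ / 2) * r θ ^ 2 =
        ∫ θ in (0)..π, ((r' θ * r' θ + r θ * r'' θ) - (r' θ ^ 2 - r θ ^ 2)) := by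
      refine intervalIntegral.integral_congr fun θ _ => ?_
      simp only [hr'']
      ring
    have hiA : IntervalIntegrable (fun θ => r' θ * r' θ + r θ * r'' θ) volume 0 π :=
      ((hrc'.mul hrc').add (hrc.mul hr''c)).intervalIntegrable _ _
    rw [h4, intervalIntegral.integral_sub hiA hiR, h1]
    ring
  -- Cauchy-Schwarz
  set k : ℝ → ℝ := fun θ => √(1 + κ θ ^ 2 / 4 - κ' θ / 2) with hk
  have hkc : Continuous k := by simp only [hk]; fun_prop
  have hk2c : Continuous fun θ => (1 + κ θ ^ 2 / 4 - κ' θ / 2) * r θ ^ 2 := by fun_prop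
  have hCS : 0 ≤ (∫ θ in (0)..π, (1 + κ θ ^ 2 / 4 - κ' θ / 2) * r θ ^ 2) -
      2 * (π / P) * (∫ θ in (0)..π, k θ) + π ^ 2 / P := by
    have h1 : 0 ≤ ∫ θ in (0)..π, (k θ * r θ - (π / P) * (r θ)⁻¹) ^ 2 :=
      intervalIntegral.integral_nonneg pi_pos.le fun θ _ => sq_nonneg _
    have h2 : ∫ θ in (0)..π, (k θ * r θ - (π / P) * (r θ)⁻¹) ^ 2 =
        ∫ θ in (0)..π, (((1 + κ θ ^ 2 / 4 - κ' θ / 2) * r θ ^ 2 - 2 * (π / P) * k θ) +
          (π / P) ^ 2 * (r θ ^ 2)⁻¹) := by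
      refine intervalIntegral.integral_congr fun θ _ => ?_
      have h3 : k θ ^ 2 = 1 + κ θ ^ 2 / 4 - κ' θ / 2 := sq_sqrt (hpos θ).le
      have h4 := (hrpos θ).ne'
      show (k θ * r θ - (π / P) * (r θ)⁻¹) ^ 2 = _
      rw [← h3]
      field_simp
      ring
    have i1 : IntervalIntegrable (fun θ => (1 + κ θ ^ 2 / 4 - κ' θ / 2) * r θ ^ 2) volume 0 π :=
      hk2c.intervalIntegrable _ _
    have i2 : IntervalIntegrable (fun θ => 2 * (π / P) * k θ) volume 0 π :=
      (continuous_const.mul hkc).intervalIntegrable _ _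
    have i3 : IntervalIntegrable (fun θ => (π / P) ^ 2 * (r θ ^ 2)⁻¹) volume 0 π :=
      (continuous_const.mul hinvc).intervalIntegrable _ _
    rw [h2, intervalIntegral.integral_add (i1.sub i2) i3, intervalIntegral.integral_sub i1 i2,
      intervalIntegral.integral_const_mul, intervalIntegral.integral_const_mul, ← hP] at h1
    have h5 : (π / P) ^ 2 * P = π ^ 2 / P := by field_simp
    rw [h5] at h1
    exact h1
  set J : ℝ := ∫ θ in (0)..π, k θ with hJ
  set R : ℝ := ∫ θ in (0)..π, (r' θ ^ 2 - r θ ^ 2) with hR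
  rw [hk2] at hCS
  have hpP : 0 < π / P := div_pos pi_pos hPpos
  have hmain : (π / P) * (2 * J) ≤ (π / P) * (2 * π) := by
    have h1 : (π / P) * (2 * π) = 2 * (π ^ 2 / P) := by field_simp
    rw [h1]
    nlinarith [hW1, hW2, hsum, hCS]
  have hle : J ≤ π := by
    have := le_of_mul_le_mul_left hmain hpP
    linarith
  refine ⟨hle, fun hge => ?_⟩
  have hJeq : J = π := le_antisymm hle hge
  -- equality in Wirtinger
  have hzero : (∫ θ in (0)..π, (w1' θ ^ 2 - w1 θ ^ 2)) +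
      (∫ θ in (0)..π, (w2' θ ^ 2 - w2 θ ^ 2)) ≤ 0 := by
    rw [hsum]
    rw [hJeq] at hCS
    have h1 : 2 * (π / P) * π = 2 * (π ^ 2 / P) := by field_simp
    rw [h1] at hCS
    linarith
  obtain ⟨A1, B1, h1⟩ := hE1 (le_antisymm (by linarith) hW1)
  obtain ⟨A2, B2, h2⟩ := hE2 (le_antisymm (by linarith) hW2)
  have hf : ∀ θ, r θ ^ 2 = (A1 ^ 2 + A2 ^ 2) * cos θ ^ 2 +
      2 * (A1 * B1 + A2 * B2) * cos θ * sin θ + (B1 ^ 2 + B2 ^ 2) * sin θ ^ 2 := by
    intro θ
    have e1 : r θ ^ 2 = w1 θ ^ 2 + w2 θ ^ 2 := by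
      simp only [hw1, hw2]
      have := sin_sq_add_cos_sq (ϑ θ)
      have e2 : sin (ϑ θ) ^ 2 = 1 - cos (ϑ θ) ^ 2 := by linarith
      ring_nf
      rw [e2]
      ring
    rw [e1, h1, h2]
    ring
  -- derivatives
  have hd1 : ∀ θ, w1' θ = -A1 * sin θ + B1 * cos θ := by
    intro θ
    have e1 : HasDerivAt w1 (-A1 * sin θ + B1 * cos θ) θ := by
      have : w1 = fun t => A1 * cos t + B1 * sin t := funext h1
      rw [this]
      refine (((hasDerivAt_cos θ).const_mul A1).add ((hasDerivAt_sin θ).const_mul B1)).congr_deriv ?_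
      ring
    exact (hw1d θ).unique e1
  have hd2 : ∀ θ, w2' θ = -A2 * sin θ + B2 * cos θ := by
    intro θ
    have e1 : HasDerivAt w2 (-A2 * sin θ + B2 * cos θ) θ := by
      have : w2 = fun t => A2 * cos t + B2 * sin t := funext h2
      rw [this]
      refine (((hasDerivAt_cos θ).const_mul A2).add ((hasDerivAt_sin θ).const_mul B2)).congr_deriv ?_
      ring
    exact (hw2d θ).unique e1
  have hwr : A1 * B2 - A2 * B1 = π / P := by
    have e1 : w1 0 * w2' 0 - w2 0 * w1' 0 = π / P := by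
      simp only [hw1, hw2, hw1', hw2']
      have h3 := (hrpos 0).ne'
      have h4 := sin_sq_add_cos_sq (ϑ 0)
      have e2 : sin (ϑ 0) ^ 2 = 1 - cos (ϑ 0) ^ 2 := by linarith
      field_simp
      ring_nf
      rw [e2]
      ring
    rw [h1, h2, hd1, hd2] at e1
    simp at e1
    linarith
  have hfpos : ∀ θ, 0 < r θ ^ 2 := fun θ => pow_pos (hrpos θ) 2
  refine ⟨A1 ^ 2 + A2 ^ 2, A1 * B1 + A2 * B2, B1 ^ 2 + B2 ^ 2, ?_, ?_, ?_, ?_⟩
  · have := hfpos 0
    rw [hf 0] at this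
    simpa using this
  · have h3 : 0 < (A1 * B2 - A2 * B1) ^ 2 := by rw [hwr]; positivity
    nlinarith
  · intro θ
    rw [← hf]
    exact hfpos θ
  · intro θ
    rw [← hf]
    have e1 : HasDerivAt (fun t => r t ^ 2) (2 * r θ * r' θ) θ := by
      have := (hrd θ).pow 2
      refine this.congr_deriv ?_
      simp
    have e2 : HasDerivAt (fun t => r t ^ 2)
        (2 * (B1 ^ 2 + B2 ^ 2 - (A1 ^ 2 + A2 ^ 2)) * cos θ * sin θ +
          2 * (A1 * B1 + A2 * B2) * (cos θ ^ 2 - sin θ ^ 2)) θ := by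
      have : (fun t => r t ^ 2) = fun θ => (A1 ^ 2 + A2 ^ 2) * cos θ ^ 2 +
        2 * (A1 * B1 + A2 * B2) * cos θ * sin θ + (B1 ^ 2 + B2 ^ 2) * sin θ ^ 2 := funext hf
      rw [this]
      have c := hasDerivAt_cos θ
      have s := hasDerivAt_sin θ
      refine ((((c.pow 2).const_mul (A1 ^ 2 + A2 ^ 2)).add
        ((c.const_mul (2 * (A1 * B1 + A2 * B2))).mul s)).add
        ((s.pow 2).const_mul (B1 ^ 2 + B2 ^ 2))).congr_deriv ?_
      simp
      ring
    have e3 := e1.unique e2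
    rw [← e3]
    simp only [hr']
    ring

end Pool.Agent.MP_ae5b4e_an
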