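import Mathlib
import Pool.Agent.Lib.MP_ae5b4e_an.Four
import Pool.Agent.Lib.MP_ae5b4e_an.UpperBound

/-!
Integration of the Hopf identity over the leaves, and the conclusion.
-/

noncomputable section

namespace Pool.Agent.MP_ae5b4e_an

open Real Set Filter Topology MeasureTheory intervalIntegral

variable {S : ℝ → ℝ → ℝ} {κ : ℝ → ℝ} {c₀ : ℝ}

/-- the integrand -/
def GG (S : ℝ → ℝ → ℝ) (κ : ℝ → ℝ) (c₀ θ u : ℝ) : ℝ :=
  (u - κ θ) ^ 2 / (1 + (u - κ θ) ^ 2) + u ^ 2 / (1 + u ^ 2) -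
    (u - κ θ + u) ^ 2 / (1 + (u - κ θ) ^ 2 + (1 + u ^ 2) - Four.dκ S c₀ θ)

/-- its primitive -/
def Φ (S : ℝ → ℝ → ℝ) (κ : ℝ → ℝ) (c₀ θ u : ℝ) : ℝ :=
  2 * Four.kk S κ c₀ θ * arctan ((u - κ θ / 2) / Four.kk S κ c₀ θ) - arctan (u - κ θ) - arctan u

/-- the defect -/
def dfct (S : ℝ → ℝ → ℝ) (κ : ℝ → ℝ) (c₀ c θ : ℝ) : ℝ :=
  (Uf S (c, θ) * (1 + (Uf S (c, θ) - κ θ) ^ 2 + D2 S (c, θ) - Four.dκ S c₀ θ) -
    (Uf S (c, θ) - κ θ) * (1 + Uf S (c, θ) ^ 2 - D2 S (c, θ))) ^ 2 /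
    ((1 + Uf S (c, θ) ^ 2 - D2 S (c, θ)) *
      (1 + (Uf S (c, θ) - κ θ) ^ 2 + D2 S (c, θ) - Four.dκ S c₀ θ) *
      (1 + (Uf S (c, θ) - κ θ) ^ 2 + (1 + Uf S (c, θ) ^ 2) - Four.dκ S c₀ θ)) * (-D1 S (c, θ))

namespace Four

variable (h : Four S κ c₀)
include h

lemma hasDerivAt_Φ (θ u : ℝ) : HasDerivAt (Φ S κ c₀ θ) (GG S κ c₀ θ u) u := by
  have hk := h.kk_pos θ
  have hk2 : kk S κ c₀ θ ^ 2 = 1 + κ θ ^ 2 / 4 - dκ S c₀ θ / 2 := sq_sqrt (h.k2_pos θ).le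
  set k := kk S κ c₀ θ with hkdef
  have h1 : HasDerivAt (fun u => (u - κ θ / 2) / k) (1 / k) u := by
    simpa using ((hasDerivAt_id u).sub_const (κ θ / 2)).div_const k
  have h2 : HasDerivAt (fun u => u - κ θ) 1 u := (hasDerivAt_id u).sub_const _
  have h3 := ((h1.arctan.const_mul (2 * k)).sub h2.arctan).sub (hasDerivAt_id u).arctan
  have e : Φ S κ c₀ θ = fun u => 2 * k * arctan ((u - κ θ / 2) / k) - arctan (u - κ θ) -
      arctan (id u) := rfl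
  rw [e]
  refine HasDerivAt.congr_deriv h3 ?_
  have hN : 1 + (u - κ θ) ^ 2 + (1 + u ^ 2) - dκ S c₀ θ =
      2 * ((u - κ θ / 2) ^ 2 + k ^ 2) := by rw [hk2]; ring
  unfold GG
  rw [hN]
  have p1 : 0 < 1 + (u - κ θ) ^ 2 := by positivity
  have p2 : 0 < 1 + u ^ 2 := by positivity
  have p3 : 0 < (u - κ θ / 2) ^ 2 + k ^ 2 := by positivity
  have p4 : 0 < 1 + ((u - κ θ / 2) / k) ^ 2 := by positivity
  have e1 : 2 * k * (1 / (1 + ((u - κ θ / 2) / k) ^ 2) * (1 / k)) =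
      2 * k ^ 2 / ((u - κ θ / 2) ^ 2 + k ^ 2) := by
    field_simp
    ring
  simp only [id]
  rw [e1]
  have e2 : (u - κ θ) ^ 2 / (1 + (u - κ θ) ^ 2) = 1 - 1 / (1 + (u - κ θ) ^ 2) := by
    field_simp; ring
  have e3 : u ^ 2 / (1 + u ^ 2) = 1 - 1 / (1 + u ^ 2) := by
    field_simp; ring
  have e4 : (u - κ θ + u) ^ 2 / (2 * ((u - κ θ / 2) ^ 2 + k ^ 2)) =
      2 - 2 * k ^ 2 / ((u - κ θ / 2) ^ 2 + k ^ 2) := by
    field_simp; ring
  rw [e2, e3, e4]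
  ring

lemma N_pos {c : ℝ} (hc : c ∈ Ioo (0:ℝ) 1) (θ : ℝ) :
    0 < 1 + (Uf S (c, θ) - κ θ) ^ 2 + (1 + Uf S (c, θ) ^ 2) - dκ S c₀ θ := by
  obtain ⟨-, ha, hb, -⟩ := h.pos_facts hc
  have := ha θ
  have := hb θ
  linarith

lemma continuousOn_integrand :
    ContinuousOn (fun q : ℝ × ℝ => GG S κ c₀ q.2 (Uf S q) * (-D1 S q)) (Ioo 0 1 ×ˢ univ) := by
  have hU := h.continuousOn_Uf
  have hκ : ContinuousOn (fun q : ℝ × ℝ => κ q.2) (Ioo 0 1 ×ˢ univ) :=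
    (h.continuous_κ.comp continuous_snd).continuousOn
  have hκ' : ContinuousOn (fun q : ℝ × ℝ => dκ S c₀ q.2) (Ioo 0 1 ×ˢ univ) :=
    (h.continuous_dκ.comp continuous_snd).continuousOn
  unfold GG
  refine ContinuousOn.mul ?_ h.continuousOn_D1.neg
  refine (((((hU.sub hκ).pow 2).div (continuousOn_const.add ((hU.sub hκ).pow 2)) ?_)).add
    ((hU.pow 2).div (continuousOn_const.add (hU.pow 2)) ?_)).sub
    ((((hU.sub hκ).add hU).pow 2).div (((continuousOn_const.add ((hU.sub hκ).pow 2)).add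
      (continuousOn_const.add (hU.pow 2))).sub hκ') ?_)
  · intro q _
    have : (0:ℝ) < 1 + (Uf S q - κ q.2) ^ 2 := by positivity
    exact this.ne'
  · intro q _
    have : (0:ℝ) < 1 + Uf S q ^ 2 := by positivity
    exact this.ne'
  · intro q hq
    exact (h.N_pos hq.1 q.2).ne'

lemma dfct_nonneg {c : ℝ} (hc : c ∈ Ioo (0:ℝ) 1) (θ : ℝ) : 0 ≤ dfct S κ c₀ c θ := by
  obtain ⟨-, ha, hb, -⟩ := h.pos_facts hc
  have h1 := ha θ
  have h2 := hb θ
  have h3 := h.N_pos hc θ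
  have h4 := h.D1_neg hc θ
  unfold dfct
  have : 0 < -D1 S (c, θ) := by linarith
  positivity

lemma continuous_dfct {c : ℝ} (hc : c ∈ Ioo (0:ℝ) 1) : Continuous (dfct S κ c₀ c) := by
  have hU : Continuous fun θ => Uf S (c, θ) := h.continuous_slice h.continuousOn_Uf hc
  have hD1 : Continuous fun θ => D1 S (c, θ) := h.continuous_slice h.continuousOn_D1 hc
  have hD2 : Continuous fun θ => D2 S (c, θ) := h.continuous_slice h.continuousOn_D2 hc
  have hκ := h.continuous_κ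
  have hκ' := h.continuous_dκ
  obtain ⟨-, ha, hb, -⟩ := h.pos_facts hc
  unfold dfct
  refine Continuous.mul (Continuous.div₀ (by fun_prop) (by fun_prop) fun θ => ?_) hD1.neg
  exact (mul_pos (mul_pos (ha θ) (hb θ)) (h.N_pos hc θ)).ne'

lemma leaf_integral {c : ℝ} (hc : c ∈ Ioo (0:ℝ) 1) :
    ∫ θ in (0)..π, GG S κ c₀ θ (Uf S (c, θ)) * (-D1 S (c, θ)) =
      ∫ θ in (0)..π, dfct S κ c₀ c θ :=
  leaf_identity (y := fun θ => Uf S (c, θ)) (p := fun θ => D2 S (c, θ))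
    (w := fun θ => -D1 S (c, θ)) (κ := κ) (κ' := dκ S c₀) (τ := next S c)
    (h.continuous_slice h.continuousOn_Uf hc) (h.continuous_slice h.continuousOn_D2 hc)
    (h.continuous_slice h.continuousOn_D1 hc).neg h.continuous_κ h.continuous_dκ
    (h.Uf_per hc) (h.D2_per hc) (fun θ => by rw [h.D1_per hc]) h.κ_per h.dκ_per
    (h.hasDerivAt_next_θ hc) (h.next_per hc)
    (h.feq hc) (h.eq_c h.hasDerivAt_κ hc) (h.eq_θ h.hasDerivAt_κ hc)
    (fun θ => by have := h.D1_neg hc θ; linarith)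

/-- the integral over one leaf -/
lemma leaf_integral_nonneg {c : ℝ} (hc : c ∈ Ioo (0:ℝ) 1) :
    0 ≤ ∫ θ in (0)..π, GG S κ c₀ θ (Uf S (c, θ)) * (-D1 S (c, θ)) := by
  rw [h.leaf_integral hc]
  exact intervalIntegral.integral_nonneg pi_pos.le fun θ _ => h.dfct_nonneg hc θ

/-- Fubini and the fundamental theorem of calculus. -/
lemma double_integral {c₁ c₂ : ℝ} (h1 : 0 < c₁) (h12 : c₁ ≤ c₂) (h2 : c₂ < 1) :
    ∫ c in c₁..c₂, (∫ θ in (0)..π, GG S κ c₀ θ (Uf S (c, θ)) * (-D1 S (c, θ))) =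
      ∫ θ in (0)..π, (Φ S κ c₀ θ (Uf S (c₁, θ)) - Φ S κ c₀ θ (Uf S (c₂, θ))) := by
  have hsub : Icc c₁ c₂ ×ˢ Icc 0 π ⊆ Ioo (0:ℝ) 1 ×ˢ univ := by
    intro q hq
    exact ⟨⟨by linarith [hq.1.1], by linarith [hq.1.2]⟩, mem_univ _⟩
  have hint : IntegrableOn (Function.uncurry fun c θ =>
      GG S κ c₀ θ (Uf S (c, θ)) * (-D1 S (c, θ))) (uIoc c₁ c₂ ×ˢ uIoc 0 π) := by
    have h3 : IntegrableOn (Function.uncurry fun c θ =>
      GG S κ c₀ θ (Uf S (c, θ)) * (-D1 S (c, θ))) (Icc c₁ c₂ ×ˢ Icc 0 π) := by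
      refine ContinuousOn.integrableOn_compact (isCompact_Icc.prod isCompact_Icc) ?_
      exact h.continuousOn_integrand.mono hsub
    refine h3.mono_set ?_
    rw [uIoc_of_le h12, uIoc_of_le pi_pos.le]
    exact prod_mono Ioc_subset_Icc_self Ioc_subset_Icc_self
  rw [MeasureTheory.intervalIntegral_intervalIntegral_swap hint]
  refine intervalIntegral.integral_congr fun θ _ => ?_
  have hd : ∀ c ∈ uIcc c₁ c₂, HasDerivAt (fun c => -Φ S κ c₀ θ (Uf S (c, θ)))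
      (GG S κ c₀ θ (Uf S (c, θ)) * (-D1 S (c, θ))) c := by
    intro c hc
    rw [uIcc_of_le h12] at hc
    have hc' : c ∈ Ioo (0:ℝ) 1 := ⟨by linarith [hc.1], by linarith [hc.2]⟩
    have h3 := ((h.hasDerivAt_Φ θ (Uf S (c, θ))).comp c (h.hasDerivAt_c hc' θ)).neg
    refine h3.congr_deriv ?_
    ring
  have hcont : ContinuousOn (fun c => GG S κ c₀ θ (Uf S (c, θ)) * (-D1 S (c, θ)))
      (uIcc c₁ c₂) := by
    rw [uIcc_of_le h12]
    refine h.continuousOn_integrand.comp (f := fun c : ℝ => (c, θ)) (by fun_prop) ?_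
    intro c hc
    exact ⟨⟨by linarith [hc.1], by linarith [hc.2]⟩, mem_univ _⟩
  rw [intervalIntegral.integral_eq_sub_of_hasDerivAt hd hcont.intervalIntegrable]
  ring

/-- the integral over one leaf is continuous in the leaf -/
lemma exists_continuous_extension {c₁ : ℝ} (h1 : 0 < c₁) (h12 : c₁ ≤ c₀) :
    ∃ D : ℝ → ℝ, Continuous D ∧ ∀ c ∈ Icc c₁ c₀,
      D c = ∫ θ in (0)..π, GG S κ c₀ θ (Uf S (c, θ)) * (-D1 S (c, θ)) := by
  have h0 := h.mem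
  set pr : ℝ → ℝ := fun c => max c₁ (min c c₀) with hpr
  have hprc : Continuous pr := by simp only [hpr]; fun_prop
  have hprm : ∀ c, pr c ∈ Ioo (0:ℝ) 1 := by
    intro c
    simp only [hpr]
    constructor
    · exact lt_max_of_lt_left h1
    · exact max_lt (by linarith [h0.2]) ((min_le_right _ _).trans_lt h0.2)
  refine ⟨fun c => ∫ θ in (0)..π, GG S κ c₀ θ (Uf S (pr c, θ)) * (-D1 S (pr c, θ)), ?_, ?_⟩
  · refine intervalIntegral.continuous_parametric_intervalIntegral_of_continuous' ?_ 0 π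
    have h2 : Function.uncurry (fun c θ => GG S κ c₀ θ (Uf S (pr c, θ)) * (-D1 S (pr c, θ))) =
        (fun q : ℝ × ℝ => GG S κ c₀ q.2 (Uf S q) * (-D1 S q)) ∘
          (fun q : ℝ × ℝ => (pr q.1, q.2)) := rfl
    rw [h2]
    refine h.continuousOn_integrand.comp_continuous ?_ ?_
    · exact (hprc.comp continuous_fst).prodMk continuous_snd
    · intro q
      exact ⟨hprm _, mem_univ _⟩
  · intro c hc
    have : pr c = c := by
      simp only [hpr]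
      rw [min_eq_left hc.2, max_eq_right hc.1]
    simp only [this]

/-- limit at the curve `γ` -/
lemma tendsto_Φ (hlim : ∀ θ, Tendsto (fun c => S c θ) (𝓝[>] 0) (𝓝 0)) :
    Tendsto (fun c₁ => ∫ θ in (0)..π, (Φ S κ c₀ θ (Uf S (c₁, θ)) - Φ S κ c₀ θ (Uf S (c₀, θ))))
      (𝓝[>] 0) (𝓝 (∫ θ in (0)..π, (kk S κ c₀ θ * π - π - Φ S κ c₀ θ (Uf S (c₀, θ))))) := by
  have hkc := h.continuous_kk
  have hκc := h.continuous_κ
  have hkn : ∀ θ, kk S κ c₀ θ ≠ 0 := fun θ => (h.kk_pos θ).ne'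
  have hev : ∀ᶠ c in 𝓝[>] (0:ℝ), c ∈ Ioo (0:ℝ) 1 := Ioo_mem_nhdsGT one_pos
  have hΦc : ∀ c ∈ Ioo (0:ℝ) 1, Continuous fun θ => Φ S κ c₀ θ (Uf S (c, θ)) := by
    intro c hc
    have hU : Continuous fun θ => Uf S (c, θ) := h.continuous_slice h.continuousOn_Uf hc
    unfold Φ
    have : Continuous fun θ => (Uf S (c, θ) - κ θ / 2) / kk S κ c₀ θ :=
      Continuous.div₀ (by fun_prop) hkc hkn
    fun_prop
  have hΦb : ∀ θ u, |Φ S κ c₀ θ u| ≤ kk S κ c₀ θ * π + π := by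
    intro θ u
    unfold Φ
    have hk := h.kk_pos θ
    have b1 : |arctan ((u - κ θ / 2) / kk S κ c₀ θ)| ≤ π / 2 :=
      abs_le.2 ⟨by linarith [neg_pi_div_two_lt_arctan ((u - κ θ / 2) / kk S κ c₀ θ)],
        (arctan_lt_pi_div_two _).le⟩
    have b2 : |arctan (u - κ θ)| ≤ π / 2 :=
      abs_le.2 ⟨by linarith [neg_pi_div_two_lt_arctan (u - κ θ)], (arctan_lt_pi_div_two _).le⟩
    have b3 : |arctan u| ≤ π / 2 :=
      abs_le.2 ⟨by linarith [neg_pi_div_two_lt_arctan u], (arctan_lt_pi_div_two _).le⟩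
    have b4 : |2 * kk S κ c₀ θ * arctan ((u - κ θ / 2) / kk S κ c₀ θ)| ≤ kk S κ c₀ θ * π := by
      rw [abs_mul, abs_of_pos (by positivity : 0 < 2 * kk S κ c₀ θ)]
      nlinarith
    have t1 := abs_sub (2 * kk S κ c₀ θ * arctan ((u - κ θ / 2) / kk S κ c₀ θ) - arctan (u - κ θ))
      (arctan u)
    have t2 := abs_sub (2 * kk S κ c₀ θ * arctan ((u - κ θ / 2) / kk S κ c₀ θ)) (arctan (u - κ θ))
    linarith
  refine intervalIntegral.tendsto_integral_filter_of_dominated_convergence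
    (fun θ => 2 * (kk S κ c₀ θ * π + π)) ?_ ?_ ?_ ?_
  · filter_upwards [hev] with c hc
    exact ((hΦc c hc).sub (hΦc c₀ h.mem)).aestronglyMeasurable
  · refine Filter.Eventually.of_forall fun c => Filter.Eventually.of_forall fun θ _ => ?_
    rw [Real.norm_eq_abs]
    have t1 := abs_sub (Φ S κ c₀ θ (Uf S (c, θ))) (Φ S κ c₀ θ (Uf S (c₀, θ)))
    have := hΦb θ (Uf S (c, θ))
    have := hΦb θ (Uf S (c₀, θ))
    linarith
  · exact (by fun_prop : Continuous fun θ => 2 * (kk S κ c₀ θ * π + π)).intervalIntegrable _ _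
  · refine Filter.Eventually.of_forall fun θ _ => ?_
    refine Tendsto.sub_const ?_ _
    have hU : Tendsto (fun c => Uf S (c, θ)) (𝓝[>] 0) atTop := by
      have h1 : Tendsto (fun c => S c θ) (𝓝[>] 0) (𝓝[>] 0) := by
        refine tendsto_nhdsWithin_iff.2 ⟨hlim θ, ?_⟩
        filter_upwards [hev] with c hc
        exact h.pos c hc θ
      exact tendsto_inv_nhdsGT_zero.comp h1
    have a1 : Tendsto (fun c => arctan (Uf S (c, θ))) (𝓝[>] 0) (𝓝 (π / 2)) :=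
      (tendsto_arctan_atTop.mono_right nhdsWithin_le_nhds).comp hU
    have a2 : Tendsto (fun c => arctan (Uf S (c, θ) - κ θ)) (𝓝[>] 0) (𝓝 (π / 2)) := by
      refine (tendsto_arctan_atTop.mono_right nhdsWithin_le_nhds).comp ?_
      exact tendsto_atTop_add_const_right _ (-κ θ) hU
    have a3 : Tendsto (fun c => arctan ((Uf S (c, θ) - κ θ / 2) / kk S κ c₀ θ)) (𝓝[>] 0)
        (𝓝 (π / 2)) := by
      refine (tendsto_arctan_atTop.mono_right nhdsWithin_le_nhds).comp ?_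
      refine Tendsto.atTop_div_const (h.kk_pos θ) ?_
      exact tendsto_atTop_add_const_right _ (-(κ θ / 2)) hU
    have a4 := ((a3.const_mul (2 * kk S κ c₀ θ)).sub a2).sub a1
    have e : 2 * kk S κ c₀ θ * (π / 2) - π / 2 - π / 2 = kk S κ c₀ θ * π - π := by ring
    rw [e] at a4
    exact a4

/-- the value of the limit -/
lemma limit_value :
    ∫ θ in (0)..π, (kk S κ c₀ θ * π - π - Φ S κ c₀ θ (Uf S (c₀, θ))) =
      π / 2 * ((∫ θ in (0)..π, kk S κ c₀ θ) - π) := by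
  have hk := h.continuous_kk
  have hT := h.continuous_T0
  have hF : Continuous fun θ => 2 * kk S κ c₀ θ * arctan √(T0 S c₀ θ) := by fun_prop
  have h1 : ∫ θ in (0)..π, (kk S κ c₀ θ * π - π - Φ S κ c₀ θ (Uf S (c₀, θ))) =
      ∫ θ in (0)..π, (2 * kk S κ c₀ θ * arctan √(T0 S c₀ θ) - π / 2) := by
    refine intervalIntegral.integral_congr fun θ _ => ?_
    have hU := h.U_pos θ
    have e1 : Uf S (c₀, θ) - κ θ = (Uf S (c₀, θ))⁻¹ := by rw [h.κ_eq]; ring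
    have e2 : (Uf S (c₀, θ) - κ θ / 2) / kk S κ c₀ θ = (√(T0 S c₀ θ))⁻¹ := by
      have e3 : Uf S (c₀, θ) - κ θ / 2 = v0 S c₀ θ := by
        rw [h.κ_eq]; unfold v0; ring
      rw [e3, h.kk_eq]
      have := (h.v0_pos θ).ne'
      have := (sqrt_pos.2 (h.T0_pos θ)).ne'
      field_simp
    show kk S κ c₀ θ * π - π - Φ S κ c₀ θ (Uf S (c₀, θ)) = _
    unfold Φ
    rw [e1, e2, arctan_inv_of_pos hU, arctan_inv_of_pos (sqrt_pos.2 (h.T0_pos θ))]
    ring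
  rw [h1, intervalIntegral.integral_sub (hF.intervalIntegrable _ _)
    (continuous_const.intervalIntegrable _ _), h.integral_arctan]
  simp
  ring

/-- The main analytic conclusion: the Hopf defect vanishes on all leaves, and `κ` comes from a
quadratic form. -/
theorem rigidity (hlim : ∀ θ, Tendsto (fun c => S c θ) (𝓝[>] 0) (𝓝 0)) :
    π ≤ (∫ θ in (0)..π, kk S κ c₀ θ) ∧
    ∀ c ∈ Ioc 0 c₀, ∫ θ in (0)..π, GG S κ c₀ θ (Uf S (c, θ)) * (-D1 S (c, θ)) = 0 := by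
  have h0 := h.mem
  set E : ℝ → ℝ := fun c₁ =>
    ∫ θ in (0)..π, (Φ S κ c₀ θ (Uf S (c₁, θ)) - Φ S κ c₀ θ (Uf S (c₀, θ))) with hE
  set L : ℝ := ∫ θ in (0)..π, (kk S κ c₀ θ * π - π - Φ S κ c₀ θ (Uf S (c₀, θ))) with hL
  have hEL : Tendsto E (𝓝[>] 0) (𝓝 L) := h.tendsto_Φ hlim
  have hEint : ∀ c ∈ Ioc 0 c₀, E c =
      ∫ t in c..c₀, (∫ θ in (0)..π, GG S κ c₀ θ (Uf S (t, θ)) * (-D1 S (t, θ))) :=
    fun c hc => (h.double_integral hc.1 hc.2 h0.2).symm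
  -- monotone
  have hmono : ∀ c₁ c₂, 0 < c₁ → c₁ ≤ c₂ → c₂ ≤ c₀ → E c₂ ≤ E c₁ := by
    intro c₁ c₂ h1 h12 h2
    obtain ⟨D, hD, hDe⟩ := h.exists_continuous_extension h1 (h12.trans h2)
    rw [hEint c₁ ⟨h1, h12.trans h2⟩, hEint c₂ ⟨h1.trans_le h12, h2⟩]
    have e1 : ∫ t in c₁..c₀, (∫ θ in (0)..π, GG S κ c₀ θ (Uf S (t, θ)) * (-D1 S (t, θ))) =
        ∫ t in c₁..c₀, D t := by
      refine intervalIntegral.integral_congr fun t ht => ?_
      rw [uIcc_of_le (h12.trans h2)] at ht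
      exact (hDe t ht).symm
    have e2 : ∫ t in c₂..c₀, (∫ θ in (0)..π, GG S κ c₀ θ (Uf S (t, θ)) * (-D1 S (t, θ))) =
        ∫ t in c₂..c₀, D t := by
      refine intervalIntegral.integral_congr fun t ht => ?_
      rw [uIcc_of_le h2] at ht
      exact (hDe t ⟨h12.trans ht.1, ht.2⟩).symm
    rw [e1, e2, ← intervalIntegral.integral_add_adjacent_intervals
      (hD.intervalIntegrable c₁ c₂) (hD.intervalIntegrable c₂ c₀)]
    have : 0 ≤ ∫ t in c₁..c₂, D t := by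
      refine intervalIntegral.integral_nonneg h12 fun t ht => ?_
      rw [hDe t ⟨ht.1, ht.2.trans h2⟩]
      exact h.leaf_integral_nonneg ⟨by linarith [ht.1], by linarith [ht.2, h0.2]⟩
    linarith
  have hE0 : E c₀ = 0 := by simp [hE]
  have hnn : ∀ c ∈ Ioc 0 c₀, 0 ≤ E c := by
    intro c hc
    rw [← hE0]
    exact hmono c c₀ hc.1 hc.2 le_rfl
  have hle : ∀ c ∈ Ioc 0 c₀, E c ≤ L := by
    intro c hc
    refine ge_of_tendsto hEL ?_
    filter_upwards [Ioo_mem_nhdsGT hc.1] with t ht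
    exact hmono t c ht.1 ht.2.le hc.2
  have hLval : L = π / 2 * ((∫ θ in (0)..π, kk S κ c₀ θ) - π) := h.limit_value
  have hub : (∫ θ in (0)..π, kk S κ c₀ θ) ≤ π :=
    (sqrt_integral_le h.hasDerivAt_κ h.continuous_dκ h.κ_per h.mean_zero h.k2_pos).1
  have hL0 : L ≤ 0 := by
    rw [hLval]
    exact mul_nonpos_of_nonneg_of_nonpos (by positivity) (by linarith)
  have hL0' : 0 ≤ L := (hnn c₀ ⟨h0.1, le_rfl⟩).trans (hle c₀ ⟨h0.1, le_rfl⟩)
  have hEz : ∀ c ∈ Ioc 0 c₀, E c = 0 := fun c hc =>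
    le_antisymm ((hle c hc).trans hL0) (hnn c hc)
  constructor
  · rw [hLval] at hL0'
    have := nonneg_of_mul_nonneg_right hL0' (by positivity : 0 < π / 2)
    linarith
  · intro c hc
    -- take c/2 as the lower limit
    have hc1 : 0 < c / 2 := by linarith [hc.1]
    have hc2 : c / 2 ≤ c₀ := by linarith [hc.2, hc.1]
    obtain ⟨D, hD, hDe⟩ := h.exists_continuous_extension hc1 hc2
    have e1 : ∫ t in (c / 2)..c₀, D t = 0 := by
      rw [← hEz (c / 2) ⟨hc1, hc2⟩, hEint (c / 2) ⟨hc1, hc2⟩]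
      refine intervalIntegral.integral_congr fun t ht => ?_
      rw [uIcc_of_le hc2] at ht
      exact hDe t ht
    by_contra hne
    have hpos : 0 < D c := by
      rw [hDe c ⟨by linarith [hc.1], hc.2⟩]
      exact lt_of_le_of_ne (h.leaf_integral_nonneg ⟨hc.1, by linarith [hc.2, h0.2]⟩) (Ne.symm hne)
    have : 0 < ∫ t in (c / 2)..c₀, D t := by
      refine intervalIntegral.integral_pos (by linarith [hc.1, hc.2]) hD.continuousOn ?_ ?_
      · intro t ht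
        rw [hDe t ⟨ht.1.le, ht.2⟩]
        exact h.leaf_integral_nonneg ⟨by linarith [ht.1], by linarith [ht.2, h0.2]⟩
      · exact ⟨c, ⟨by linarith [hc.1], hc.2⟩, hpos⟩
    rw [e1] at this
    exact lt_irrefl _ this

/-- the slope of the leaves is determined -/
lemma slope (hlim : ∀ θ, Tendsto (fun c => S c θ) (𝓝[>] 0) (𝓝 0)) {c : ℝ} (hc : c ∈ Ioc 0 c₀)
    (θ : ℝ) : Uf S (c, θ) * (1 + (Uf S (c, θ) - κ θ) ^ 2 + D2 S (c, θ) - dκ S c₀ θ) =
      (Uf S (c, θ) - κ θ) * (1 + Uf S (c, θ) ^ 2 - D2 S (c, θ)) := by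
  have hc' : c ∈ Ioo (0:ℝ) 1 := ⟨hc.1, hc.2.trans_lt h.mem.2⟩
  have h1 := (h.rigidity hlim).2 c hc
  rw [h.leaf_integral hc'] at h1
  have hz : ∀ t ∈ Icc 0 π, dfct S κ c₀ c t = 0 := by
    intro t ht
    by_contra hne
    have hpos : 0 < dfct S κ c₀ c t :=
      lt_of_le_of_ne (h.dfct_nonneg hc' t) (Ne.symm hne)
    have : 0 < ∫ θ in (0)..π, dfct S κ c₀ c θ :=
      intervalIntegral.integral_pos pi_pos (h.continuous_dfct hc').continuousOn
        (fun t _ => h.dfct_nonneg hc' t) ⟨t, ht, hpos⟩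
    rw [h1] at this
    exact lt_irrefl _ this
  have hper : Function.Periodic (dfct S κ c₀ c) π := by
    intro t
    unfold dfct
    rw [h.Uf_per hc', h.D1_per hc', h.D2_per hc', h.κ_per, h.dκ_per]
  obtain ⟨t, ht, hte⟩ := hper.exists_mem_Ico₀ pi_pos θ
  have h2 : dfct S κ c₀ c θ = 0 := by
    rw [hte]
    exact hz t ⟨ht.1, ht.2.le⟩
  obtain ⟨-, ha, hb, -⟩ := h.pos_facts hc'
  unfold dfct at h2
  have h3 := h.D1_neg hc' θ
  have h4 : -D1 S (c, θ) ≠ 0 := by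
    have : 0 < -D1 S (c, θ) := by linarith
    exact this.ne'
  have h5 := (mul_pos (mul_pos (ha θ) (hb θ)) (h.N_pos hc' θ)).ne'
  rcases mul_eq_zero.1 h2 with h6 | h6
  · rcases div_eq_zero_iff.1 h6 with h7 | h7
    · have h8 := pow_eq_zero_iff (two_ne_zero) |>.1 h7
      linarith
    · exact absurd h7 h5
  · exact absurd h6 h4

/-- The conclusion. -/
theorem conics (hlim : ∀ θ, Tendsto (fun c => S c θ) (𝓝[>] 0) (𝓝 0)) :
    ∃ a b d : ℝ, 0 < a ∧ b ^ 2 < a * d ∧ ∀ c ∈ Ioc 0 c₀, ∃ l : ℝ,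
      a < l ∧ b ^ 2 < (l - a) * (l - d) ∧
      leaf S c = {z : ℝ × ℝ | a * z.1 ^ 2 + 2 * b * z.1 * z.2 + d * z.2 ^ 2 =
        l * (z.1 ^ 2 + z.2 ^ 2 - 1)} := by
  obtain ⟨a, b, d, ha, hab, hf, hκ⟩ :=
    (sqrt_integral_le h.hasDerivAt_κ h.continuous_dκ h.κ_per h.mean_zero h.k2_pos).2
      (h.rigidity hlim).1
  refine ⟨a, b, d, ha, hab, fun c hc => ?_⟩
  have hc' : c ∈ Ioo (0:ℝ) 1 := ⟨hc.1, hc.2.trans_lt h.mem.2⟩
  have hx : ∀ θ, 0 < (S c θ)⁻¹ - κ θ := by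
    intro θ
    have hsurj : Function.Surjective (next S c) :=
      surjective_of_shift (continuous_iff_continuousAt.2 fun θ =>
        (h.hasDerivAt_next_θ hc' θ).continuousAt) (h.next_per hc')
    obtain ⟨φ, rfl⟩ := hsurj θ
    rw [h.eq c hc' φ]
    exact inv_pos.2 (h.pos c hc' φ)
  set f : ℝ → ℝ := fun θ => a * cos θ ^ 2 + 2 * b * cos θ * sin θ + d * sin θ ^ 2 with hfdef
  have hfd : ∀ θ, HasDerivAt f (-κ θ * f θ) θ := by
    intro θ
    have cc := hasDerivAt_cos θ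
    have ss := hasDerivAt_sin θ
    refine ((((cc.pow 2).const_mul a).add ((cc.const_mul (2 * b)).mul ss)).add
      ((ss.pow 2).const_mul d)).congr_deriv ?_
    rw [← hκ θ]
    simp
    ring
  -- the first integral is constant on the leaf
  have hHd : ∀ θ, HasDerivAt (fun θ => f θ * (Uf S (c, θ) ^ 2 - 1 - κ θ * Uf S (c, θ))) 0 θ := by
    intro θ
    have hU := h.hasDerivAt_θ hc' θ
    have h1 := (hfd θ).mul (((hU.pow 2).sub_const 1).sub ((h.hasDerivAt_κ θ).mul hU))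
    refine h1.congr_deriv ?_
    have h2 := h.slope hlim hc θ
    simp only [Nat.cast_ofNat, Nat.add_one_sub_one, pow_one, Pi.pow_apply, Pi.sub_apply,
      Pi.mul_apply]
    have h3 : f θ * (-κ θ * (Uf S (c, θ) ^ 2 - 1 - κ θ * Uf S (c, θ)) +
        (2 * Uf S (c, θ) * D2 S (c, θ) - (dκ S c₀ θ * Uf S (c, θ) + κ θ * D2 S (c, θ)))) = 0 := by
      have h4 : -κ θ * (Uf S (c, θ) ^ 2 - 1 - κ θ * Uf S (c, θ)) +
        (2 * Uf S (c, θ) * D2 S (c, θ) - (dκ S c₀ θ * Uf S (c, θ) + κ θ * D2 S (c, θ))) = 0 := by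
        linear_combination h2
      rw [h4, mul_zero]
    linear_combination h3
  have hconst : ∀ θ, f θ * (((S c θ)⁻¹) ^ 2 - 1 - κ θ * (S c θ)⁻¹) =
      f 0 * (Uf S (c, 0) ^ 2 - 1 - κ 0 * Uf S (c, 0)) := by
    intro θ
    exact is_const_of_deriv_eq_zero (f := fun θ => f θ * (Uf S (c, θ) ^ 2 - 1 - κ θ * Uf S (c, θ)))
      (fun t => (hHd t).differentiableAt) (fun t => (hHd t).deriv) θ 0
  exact leaf_eq_conic ha hab (h.pos c hc') hx hf hκ hconst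

end Four

end Pool.Agent.MP_ae5b4e_an
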