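import Mathlib
import Pool.Agent.Lib.MP_ae5b4e_an_RG.CFin

/-!
# MP_ae5b4e_an: foliations near a conic, field with countably many singularities (former hand-in, superseded by SingleValuedConic)

After a projective map the conic `γ` is the unit circle.  The leaves are closed curves of the
projective plane, `0 < c < 1`, which converge to `γ` for `c → 0`; they are only continuous.  On the
tangent line to `γ` at the point with angle `θ` we use the coordinate `u` (`u = ∞` at the tangency
point, `1/u` is the signed distance from it); a projective involution fixing the tangency point is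
`u ↦ κ θ - u`.  We assume that `κ` is smooth (automatic for a smooth foliation) and that `κ` agrees
on ONE arc of the circle, however short, with `K (exp (i θ))`, where the set of the points of the
complex plane at which `K` is not analytic is countable.  Then the leaves are conics of one pencil
containing `γ`.  Nothing else is assumed: no analyticity of the field or of the foliation, no first
integral, no symmetry and nothing about periodic orbits, and the foliated neighbourhood may be
arbitrarily thin.

Idea of the proof.  (0) `κ` is real-analytic by the theorem of the file `Regularity`; so it agrees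
with `K` everywhere, and `K` has no singularities on the circle after the removal of the removable
ones.  Let `z` be a complex coordinate of the conic.  The tangent lines through the vertices of a
polygon inscribed in a leaf satisfy `1/(z⁺ - z) + 1/(z⁻ - z) = k z`.
(1) The foliation is real-analytic up to `γ`.  So there is `F (t, ρ)`, holomorphic near `ℝ × {0}`
and `1`-periodic in `t`, such that `F (t + j ρ, ρ)`, `j ∈ ℤ`, are the vertices, and
`F₀ = F (·, 0)` satisfies `k (F₀) = - F₀'' / F₀' ^ 2`.
(2) Suppose that `k` is not rational; choose the coordinate so that `k` is singular at infinity.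
Let `h` be the maximal height such that `F` is holomorphic near `{0 ≤ Im t < h} × {0}`.  If `h` is
finite and one point of `Im t = h` is regular, then all are.  For let `ρ` be real and small and
follow the chain `x_j = F (t + j ρ, ρ)` from the regular point along the line `Im t = h`: if `x_j` is
the first one such that `k (x_j)` has an essential singularity at some `t`, then `x_{j+1}`, `x_{j+2}`,
... come near to every point of the plane there (theorem of Casorati and Weierstrass), but far along
the line one is near the regular point again.  The theorem of the two constants then shows that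
`F` is holomorphic in both variables above the line.
(3) The existence of an analytic first integral near `(x, x)` is continued along all paths on which
`k` is analytic.  So with (2) `F₀` has no continuation across any point of `Im t = h`.
(4) If `F₀ t₁ = F₀ t₂`, then `F₀` is invariant under an affine map `t ↦ t₂ ± (t - t₁)`: it must map
the strip onto itself, because `F₀` has no continuation.  Hence `F₀` tends to one point at each end
of the strip, the heights are infinite, `F₀` is a meromorphic function of `exp (2 π i t)` at each
end, and `k` is meromorphic at infinity: contradiction.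
(5) If `k` is rational, then the closed polygons of the family, a valuation and the Newton polygon of
the recursion show that `k = - f' / f` with a positive quartic form `f`, a product of two affine
functions on the circle, and Poncelet's theorem gives the leaves.
-/

noncomputable section

namespace Pool.Agent.MP_ae5b4e_an_MeromorphicConicVariant

open Real Set Filter Topology
open scoped ContDiff
open Pool.Agent.MP_ae5b4e_an_hopf
open Pool.Agent.MP_ae5b4e_an_MET (conic)
open Pool.Agent.MP_ae5b4e_an_RG (circ1)

/-- Continuous families of closed curves around the unit circle with projective involutions on the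
tangent lines whose field is smooth and agrees on one arc with a function with countably many
singularities consist of conics of a pencil. -/
theorem result (U : ℝ → ℝ → ℝ) (κ : ℝ → ℝ) (K : ℂ → ℂ)
    (hcount : {z : ℂ | ¬ AnalyticAt ℂ K z}.Countable) (θ₀ : ℝ)
    (hκ : ∀ᶠ θ : ℝ in 𝓝 θ₀, (κ θ : ℂ) = K (Complex.exp (θ * Complex.I)))
    (hcont : ContinuousOn (fun z : ℝ × ℝ => U z.1 z.2) (Ioo 0 1 ×ˢ univ))
    (hper : ∀ c ∈ Ioo (0:ℝ) 1, ∀ θ, U c (θ + 2 * π) = U c θ)
    (hsimple : ∀ c ∈ Ioo (0:ℝ) 1, ∀ θ θ', circ1.pt θ (U c θ) = circ1.pt θ' (U c θ') →
      ∃ n : ℤ, θ' = θ + n * (2 * π))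
    (hanti : ∀ θ, StrictAntiOn (fun c => U c θ) (Ioo 0 1))
    (hlim : ∀ θ, Tendsto (fun c => U c θ) (𝓝[>] 0) atTop)
    (hreg : ContDiff ℝ ∞ κ ∨ (ContDiffOn ℝ ∞ (fun z : ℝ × ℝ => U z.1 z.2) (Ioo 0 1 ×ˢ univ) ∧
      ∀ c ∈ Ioo (0:ℝ) 1, ∀ θ, deriv (fun r => U r θ) c < 0))
    (hproj : ∀ c ∈ Ioo (0:ℝ) 1, ∀ θ u v, u ≠ v → circ1.pt θ u ∈ circ1.leaf U c →
      circ1.pt θ v ∈ circ1.leaf U c → u + v = κ θ) :
    ∃ Q E : QuadraticForm ℝ (Fin 3 → ℝ), E.Nondegenerate ∧ circ1.trace = conic E ∧
      (∀ θ, 0 < Q (circ1.Γ θ)) ∧
      ∀ c ∈ Ioo (0:ℝ) 1, ∃ ρ : ℝ, (Q - ρ • E).Nondegenerate ∧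
        circ1.leaf U c = conic (Q - ρ • E) :=
  Pool.Agent.MP_ae5b4e_an_RG.circle_mero
    ⟨hcont, hper, hsimple, fun _ hc _ hc' hlt t => hanti t hc hc' hlt, hlim, hproj⟩ hreg hcount hκ

end Pool.Agent.MP_ae5b4e_an_MeromorphicConicVariant
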