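import Mathlib
import Pool.Agent.Lib.MP_ae5b4e_an_SVC.Fin

/-!
# MP_ae5b4e_an: foliations near a conic, fields of involutions without branching

After a projective map the conic `γ` is the unit circle.  The leaves are closed curves of the
projective plane, `0 < c < 1`, which converge to `γ` for `c → 0`; they are only continuous.  On the
tangent line to `γ` at the point with angle `θ` we use the coordinate `u` (`u = ∞` at the tangency
point, `1/u` is the signed distance from it); a projective involution fixing the tangency point is
`u ↦ κ θ - u`.  We assume that `κ` is smooth (automatic for a smooth foliation) and that on ONE arc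
of the circle, however short, `κ θ = K (exp (i θ))` where `K` is a meromorphic function on an open
set `Ω` of the complex plane, its domain of existence: a meromorphic function on a disc which
agrees with `K` near one point of the disc is a restriction of `K`.  In other words the meromorphic
continuation of the field to the complex domain is single valued.  `Ω` is arbitrary, for instance
every point of its boundary can be a limit of poles, or the boundary of `Ω` can be a curve (natural
boundary), or `K` can have arbitrary isolated singularities.  Then the leaves are conics of one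
pencil containing `γ`.  Nothing else is assumed: no analyticity of the foliation, no first integral,
no symmetry and nothing about periodic orbits, and the foliated neighbourhood may be arbitrarily
thin.

Idea of the proof.  (0) `κ` is real-analytic by the theorem of the file `Regularity`, so the circle
is contained in `Ω`.  Let `z` be a complex coordinate of the conic.  The tangent lines through the
vertices of a polygon inscribed in a leaf satisfy `1/(z⁺ - z) + 1/(z⁻ - z) = k z`, and there is
`F (t, ρ)`, holomorphic near `ℝ × {0}` and `1`-periodic in `t`, such that `F (t + j ρ, ρ)`, `j ∈ ℤ`,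
are the vertices and `F₀ = F (·, 0)` satisfies `k (F₀) = - F₀'' / F₀' ^ 2`.
(1) Let `h` be the maximal height such that `F` is meromorphic near `{|Im t| < h} × {0}`.  Suppose
that `h` is finite.  `F₀` takes every value at most once modulo `1` in its maximal strip: if
`F₀ t₁ = F₀ t₂` then both germs of `F₀` solve the same differential equation, as `k` is single
valued, so `F₀` is invariant under an affine map, which must map the maximal strip onto itself.
(2) So `F₀` is univalent on all discs of radius `≤ 1/2` in the strip.  Let `t` be a point of depth
`D` below the line `Im t = h` and `η = i r`, `r` small compared with `D` but at least `ε D`.  The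
vertices `F (t - j η, η)` for large `j` are far below the line and have labels: `F = F₀ (M)`.  Going
up, the upper label is a solution of a node equation `G (u) + G (v) = 0` in which `G` is, in a
suitable coordinate, a function of the class `Σ` on the exterior of the unit disc, because `F₀` is
univalent.  The area theorem shows that this equation has exactly one solution, and estimates of
the class `Σ` show that the process can be continued beyond the depth `D`: `F (·, η)` is meromorphic
on a disc with centre `t` which is larger than `D` by an amount proportional to `r`.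
(3) The logarithm of the Hartogs radius is subharmonic.  With the gain of (2) on the set
`ε D ≤ |η|` of directions and the Lipschitz bound it follows that the radius at `η = 0` is larger
than `D`: `F` is meromorphic near `{|Im t| < h'} × {0}` with `h' > h`, a contradiction.
(4) So `F₀` is meromorphic in the plane.  If it is injective modulo `1` it is a rational function of
`exp (2 π i t)` by the theorem of Casorati and Weierstrass, otherwise it is invariant under an
affine map, and it turns out to be elliptic.  In both cases all but countably many points of the
plane are values of `F₀` at regular points, so that the complement of `Ω` is countable, and `κ`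
belongs to the case which was treated before (a field with countably many singularities).
-/

noncomputable section

namespace Pool.Agent.Lib.MP_ae5b4e_an.SingleValuedConicVariant

open Real Set Filter Topology Metric
open scoped ContDiff
open Pool.Agent.MP_ae5b4e_an_hopf
open Pool.Agent.MP_ae5b4e_an_MET (conic)
open Pool.Agent.MP_ae5b4e_an_RG (circ1)

/-- Continuous families of closed curves around the unit circle with projective involutions on the
tangent lines whose field is smooth and has a single valued meromorphic continuation consist of
conics of a pencil. -/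
theorem result (U : ℝ → ℝ → ℝ) (κ : ℝ → ℝ) (K : ℂ → ℂ) (Ω : Set ℂ)
    (hopen : IsOpen Ω) (hmer : MeromorphicOn K Ω)
    (hmax : ∀ (z : ℂ) (r : ℝ) (g : ℂ → ℂ), 0 < r → MeromorphicOn g (ball z r) →
      (∃ w ∈ ball z r ∩ Ω, g =ᶠ[𝓝[≠] w] K) →
      ball z r ⊆ Ω ∧ ∀ w ∈ ball z r, g =ᶠ[𝓝[≠] w] K)
    (θ₀ : ℝ) (hθ₀ : Complex.exp (θ₀ * Complex.I) ∈ Ω)
    (hκ : ∀ᶠ θ : ℝ in 𝓝 θ₀, (κ θ : ℂ) = K (Complex.exp (θ * Complex.I)))
    (hcont : ContinuousOn (fun z : ℝ × ℝ => U z.1 z.2) (Ioo 0 1 ×ˢ univ))
    (hper : ∀ c ∈ Ioo (0:ℝ) 1, ∀ θ, U c (θ + 2 * π) = U c θ)
    (hsimple : ∀ c ∈ Ioo (0:ℝ) 1, ∀ θ θ', circ1.pt θ (U c θ) = circ1.pt θ' (U c θ') →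
      ∃ n : ℤ, θ' = θ + n * (2 * π))
    (hanti : ∀ θ, StrictAntiOn (fun c => U c θ) (Ioo 0 1))
    (hlim : ∀ θ, Tendsto (fun c => U c θ) (𝓝[>] 0) atTop)
    (hreg : ContDiff ℝ ∞ κ ∨ (ContDiffOn ℝ ∞ (fun z : ℝ × ℝ => U z.1 z.2) (Ioo 0 1 ×ˢ univ) ∧
      ∀ c ∈ Ioo (0:ℝ) 1, ∀ θ, deriv (fun r => U r θ) c < 0))
    (hproj : ∀ c ∈ Ioo (0:ℝ) 1, ∀ θ u v, u ≠ v → circ1.pt θ u ∈ circ1.leaf U c →
      circ1.pt θ v ∈ circ1.leaf U c → u + v = κ θ) :
    ∃ Q E : QuadraticForm ℝ (Fin 3 → ℝ), E.Nondegenerate ∧ circ1.trace = conic E ∧
      (∀ θ, 0 < Q (circ1.Γ θ)) ∧
      ∀ c ∈ Ioo (0:ℝ) 1, ∃ ρ : ℝ, (Q - ρ • E).Nondegenerate ∧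
        circ1.leaf U c = conic (Q - ρ • E) :=
  Pool.Agent.MP_ae5b4e_an_SVC.circle_sv
    ⟨hcont, hper, hsimple, fun _ hc _ hc' hlt t => hanti t hc hc' hlt, hlim, hproj⟩ hreg
    ⟨hopen, hmer, hmax⟩ hθ₀ hκ

end Pool.Agent.Lib.MP_ae5b4e_an.SingleValuedConicVariant
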