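import Mathlib
import Pool.Agent.Lib.MP_ae5b4e_an.Geometry
import Pool.Agent.Lib.MP_ae5b4e_an.Main

/-!
# MP_ae5b4e_an: the centrally symmetric case with `γ` an ellipse

After an affine change of coordinates the ellipse `γ` is the unit circle.  The leaves are the
closed curves `leaf S c`, `0 < c < 1`, which converge to `γ` for `c → 0`.  On the tangent line
to `γ` at the point `p` with angle `θ` we use the signed coordinate `s` (`s = 0` at `p`); a
projective involution fixing `p` is `1/s + 1/s' = κ θ`.

Idea of the proof (a Hopf type argument).  The vertices of the circumscribed polygons inscribed in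
a leaf are critical for a generating function in the polar angle of the vertices; the field
`sin(angle between consecutive tangency points)` is compared with the positive Jacobi field coming
from the foliation.  This gives an integral inequality, which after integration over all leaves up
to the leaf of rotation number `1/4` becomes `∫_0^π k ≥ π`, `k = sqrt(1 + κ²/4 - κ'/2)`.  The
opposite inequality follows from a Blaschke-Santalo type inequality, with equality only for
quadratic forms.
-/

noncomputable section

namespace Pool.Agent.Results.MP_ae5b4e_an.SymmetricConic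

open Real Set Filter Topology
open Pool.Agent.MP_ae5b4e_an

/-- Centrally symmetric foliations around the unit circle with projective involutions on the
tangent lines: if some leaf has rotation number `1/4`, then all leaves up to it are ellipses of
one pencil of conics containing the circle. -/
theorem result (S : ℝ → ℝ → ℝ) (κ : ℝ → ℝ) (c₀ : ℝ) (hc₀ : c₀ ∈ Ioo (0:ℝ) 1)
    (hsmooth : ContDiffOn ℝ 1 (fun q : ℝ × ℝ => S q.1 q.2) (Ioo 0 1 ×ˢ univ))
    (hpos : ∀ c ∈ Ioo (0:ℝ) 1, ∀ θ, 0 < S c θ)
    (hper : ∀ c ∈ Ioo (0:ℝ) 1, ∀ θ, S c (θ + π) = S c θ)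
    (hmono : ∀ c ∈ Ioo (0:ℝ) 1, ∀ θ, 0 < deriv (fun t => S t θ) c)
    (hlim : ∀ θ, Tendsto (fun c => S c θ) (𝓝[>] 0) (𝓝 0))
    (hproj : ∀ c ∈ Ioo (0:ℝ) 1, ∀ θ s s', s < 0 → 0 < s' → tangentPoint θ s ∈ leaf S c →
      tangentPoint θ s' ∈ leaf S c → s⁻¹ + s'⁻¹ = κ θ)
    (hfour : ∀ θ, next S c₀ (next S c₀ (next S c₀ (next S c₀ θ))) = θ + 2 * π) :
    ∃ a b d : ℝ, 0 < a ∧ b ^ 2 < a * d ∧ ∀ c ∈ Ioc 0 c₀, ∃ l : ℝ,
      a < l ∧ b ^ 2 < (l - a) * (l - d) ∧
      leaf S c = {z : ℝ × ℝ | a * z.1 ^ 2 + 2 * b * z.1 * z.2 + d * z.2 ^ 2 =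
        l * (z.1 ^ 2 + z.2 ^ 2 - 1)} := by
  have h : Four S κ c₀ :=
    { smooth := hsmooth
      pos := hpos
      per := hper
      mono := hmono
      eq := fun c hc θ => next_eq (hpos c hc) (hproj c hc) θ
      mem := hc₀
      four := hfour }
  exact h.conics hlim

end Pool.Agent.Results.MP_ae5b4e_an.SymmetricConic
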